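import Pool.Agent.NNe.Chk

set_option linter.all false
set_option maxRecDepth 1000000
namespace Pool.Agent.NNr.R15_1_2_4

open Pool.Agent.NNe

noncomputable def SI3_0 : Nat := (nat_lit 0x300c0300c0300c0300c030080200802008010040100000)
noncomputable def SW3_0 : Nat := (nat_lit 0x48022010007803801a00c0008000012008002000c004007003001401600a)
noncomputable def RV3_0 : Nat := (nat_lit 0x2b20051ae00029600229200621000328e00220c0032b20081ae00139a00331400a31800d29200e0800023180102920100800052b200c1ae002)
noncomputable def CO3_0 : Nat := (nat_lit 0x2a81902a81702a80b02a80902a80802a80702a8060290d90290d702654d02654a02558c02558902558001664c016649016640012b19012b17)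
noncomputable def Y3_0_0_1 : Nat := (nat_lit 0x200000000200000)
noncomputable def Y3_0_2_3 : Nat := (nat_lit 0xa00010002d4005880040000000002000000008000000)
noncomputable def C3_0 : Cd := (Cd.mk (nat_lit 19) (nat_lit 4) (nat_lit 784) SI3_0 SW3_0 RV3_0 CO3_0 (Sl.cons (Sd.mk (nat_lit 4) (nat_lit 4) (nat_lit 0) (nat_lit 2) (Sb.cons (nat_lit 8) (nat_lit 0) (nat_lit 2) Sb.nil) (Bl.r Y3_0_0_1 (nat_lit 1) Bl.nil)) (Sl.cons (Sd.mk (nat_lit 5) (nat_lit 4) (nat_lit 2) (nat_lit 3) (Sb.cons (nat_lit 8) (nat_lit 0) (nat_lit 3) Sb.nil) (Bl.c Y3_0_0_1 (nat_lit 4) (nat_lit 0) Bl.nil)) (Sl.cons (Sd.mk (nat_lit 9) (nat_lit 8) (nat_lit 5) (nat_lit 5) (Sb.cons (nat_lit 4) (nat_lit 0) (nat_lit 3) (Sb.cons (nat_lit 8) (nat_lit 3) (nat_lit 2) Sb.nil)) (Bl.r Y3_0_2_3 (nat_lit 3) Bl.nil)) (Sl.cons (Sd.mk (nat_lit 10) (nat_lit 8) (nat_lit 10) (nat_lit 9) (Sb.cons (nat_lit 4) (nat_lit 0) (nat_lit 2) (Sb.cons (nat_lit 8) (nat_lit 2) (nat_lit 7) Sb.nil)) (Bl.c Y3_0_2_3 (nat_lit 10) (nat_lit 2) Bl.nil)) Sl.nil)))))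
noncomputable def C3_1 : Cd := (Cd.mk (nat_lit 0) (nat_lit 5) (nat_lit 560) (nat_lit 0) (nat_lit 0) (nat_lit 0) (nat_lit 0) Sl.nil)
noncomputable def SI3_2 : Nat := (nat_lit 0)
noncomputable def SW3_2 : Nat := (nat_lit 0)
noncomputable def RV3_2 : Nat := (nat_lit 0x296005)
noncomputable def CO3_2 : Nat := (nat_lit 0x1568b)
noncomputable def C3_2 : Cd := (Cd.mk (nat_lit 1) (nat_lit 6) (nat_lit 336) SI3_2 SW3_2 RV3_2 CO3_2 (Sl.cons (Sd.mk (nat_lit 5) (nat_lit 4) (nat_lit 0) (nat_lit 1) (Sb.cons (nat_lit 4) (nat_lit 0) (nat_lit 1) Sb.nil) Bl.nil) Sl.nil))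
noncomputable def SI3_3 : Nat := (nat_lit 0x400)
noncomputable def SW3_3 : Nat := (nat_lit 0x2000)
noncomputable def RV3_3 : Nat := (nat_lit 0x29600618a000)
noncomputable def CO3_3 : Nat := (nat_lit 0x1568b011005)
noncomputable def Y3_3_0_1 : Nat := (nat_lit 0x80000)
noncomputable def C3_3 : Cd := (Cd.mk (nat_lit 2) (nat_lit 7) (nat_lit 112) SI3_3 SW3_3 RV3_3 CO3_3 (Sl.cons (Sd.mk (nat_lit 4) (nat_lit 4) (nat_lit 0) (nat_lit 1) (Sb.cons (nat_lit 4) (nat_lit 0) (nat_lit 1) Sb.nil) (Bl.r Y3_3_0_1 (nat_lit 1) Bl.nil)) (Sl.cons (Sd.mk (nat_lit 5) (nat_lit 4) (nat_lit 1) (nat_lit 1) (Sb.cons (nat_lit 4) (nat_lit 0) (nat_lit 1) Sb.nil) (Bl.c Y3_3_0_1 (nat_lit 2) (nat_lit 0) Bl.nil)) Sl.nil)))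
noncomputable def SI3_4 : Nat := (nat_lit 0x200400)
noncomputable def SW3_4 : Nat := (nat_lit 0x2002)
noncomputable def RV3_4 : Nat := (nat_lit 0x20c00531400b20c012)
noncomputable def CO3_4 : Nat := (nat_lit 0x2888602654a00aa06)
noncomputable def Y3_4_1_2 : Nat := (nat_lit 0x80000)
noncomputable def C3_4 : Cd := (Cd.mk (nat_lit 3) (nat_lit 5) (nat_lit 770) SI3_4 SW3_4 RV3_4 CO3_4 (Sl.cons (Sd.mk (nat_lit 2) (nat_lit 0) (nat_lit 0) (nat_lit 1) (Sb.cons (nat_lit 8) (nat_lit 0) (nat_lit 1) Sb.nil) Bl.nil) (Sl.cons (Sd.mk (nat_lit 9) (nat_lit 8) (nat_lit 1) (nat_lit 1) (Sb.cons (nat_lit 8) (nat_lit 0) (nat_lit 1) Sb.nil) (Bl.r Y3_4_1_2 (nat_lit 2) Bl.nil)) (Sl.cons (Sd.mk (nat_lit 10) (nat_lit 8) (nat_lit 2) (nat_lit 1) (Sb.cons (nat_lit 0) (nat_lit 0) (nat_lit 1) Sb.nil) (Bl.c Y3_4_1_2 (nat_lit 2) (nat_lit 1) Bl.nil)) Sl.nil))))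
noncomputable def SI3_5 : Nat := (nat_lit 0x50140501405010040100400c0300c0200802008020080100401000000000000000)
noncomputable def SW3_5 : Nat := (nat_lit 0x68032018004001c02a0140088040026012007803801a00c002801000601700b001801600a0048008002000)
noncomputable def RV3_5 : Nat := (nat_lit 0x31800531400418a00631800618a00731400c18a00f31800e18a01031801118a01218a0142b200029200018a00128e00020c00018a00331801318a01618a018a8e003a0c00898a009a8e00498a00ca06000)
noncomputable def CO3_5 : Nat := (nat_lit 0x2a80c02a80a02a80502888c02888502654a02654502558c02558501664c01664501568501101901100901100501004701004601004500aa0c00aa05008a85001107001106001105000147000145000143)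
noncomputable def Y3_5_1_0 : Nat := (nat_lit 0x50000a0000000000000000000)
noncomputable def Y3_5_2_3 : Nat := (nat_lit 0x8000100000000000000000000000200004)
noncomputable def Y3_5_4_5 : Nat := (nat_lit 0x2000000001000000000200000000100000)
noncomputable def C3_5 : Cd := (Cd.mk (nat_lit 27) (nat_lit 6) (nat_lit 546) SI3_5 SW3_5 RV3_5 CO3_5 (Sl.cons (Sd.mk (nat_lit 0) (nat_lit 0) (nat_lit 0) (nat_lit 6) (Sb.cons (nat_lit 0) (nat_lit 0) (nat_lit 3) (Sb.cons (nat_lit 4) (nat_lit 3) (nat_lit 3) Sb.nil)) (Bl.c Y3_5_1_0 (nat_lit 6) (nat_lit 1) Bl.nil)) (Sl.cons (Sd.mk (nat_lit 2) (nat_lit 0) (nat_lit 6) (nat_lit 3) (Sb.cons (nat_lit 0) (nat_lit 0) (nat_lit 1) (Sb.cons (nat_lit 8) (nat_lit 1) (nat_lit 2) Sb.nil)) (Bl.r Y3_5_1_0 (nat_lit 0) Bl.nil)) (Sl.cons (Sd.mk (nat_lit 4) (nat_lit 4) (nat_lit 9) (nat_lit 6) (Sb.cons (nat_lit 0) (nat_lit 0) (nat_lit 3) (Sb.cons (nat_lit 4) (nat_lit 3) (nat_lit 3) Sb.nil)) (Bl.r Y3_5_2_3 (nat_lit 3) Bl.nil)) (Sl.cons (Sd.mk (nat_lit 5) (nat_lit 4) (nat_lit 15) (nat_lit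 3) (Sb.cons (nat_lit 4) (nat_lit 0) (nat_lit 1) (Sb.cons (nat_lit 8) (nat_lit 1) (nat_lit 2) Sb.nil)) (Bl.c Y3_5_2_3 (nat_lit 12) (nat_lit 2) Bl.nil)) (Sl.cons (Sd.mk (nat_lit 9) (nat_lit 8) (nat_lit 18) (nat_lit 4) (Sb.cons (nat_lit 4) (nat_lit 0) (nat_lit 2) (Sb.cons (nat_lit 8) (nat_lit 2) (nat_lit 2) Sb.nil)) (Bl.r Y3_5_4_5 (nat_lit 5) Bl.nil)) (Sl.cons (Sd.mk (nat_lit 10) (nat_lit 8) (nat_lit 22) (nat_lit 5) (Sb.cons (nat_lit 0) (nat_lit 0) (nat_lit 2) (Sb.cons (nat_lit 8) (nat_lit 2) (nat_lit 3) Sb.nil)) (Bl.c Y3_5_4_5 (nat_lit 8) (nat_lit 4) Bl.nil)) Sl.nil)))))))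
noncomputable def SI3_6 : Nat := (nat_lit 0x140501405014040100300c03008020080200401004010040000000)
noncomputable def SW3_6 : Nat := (nat_lit 0x16007003001400400e006804001e00c00a801000200000a004c02400a0018044012008)
noncomputable def RV3_6 : Nat := (nat_lit 0xa800a0a800520c0061080002b20060a801020c00d0a801620c00f2960070a802f0a803c20c00118a0040a802320c0131080020a802a08000c2b200aa0c00998a00a)
noncomputable def CO3_6 : Nat := (nat_lit 0x290d40288940288860288840280d902559402558601665401664601568b012b14010b9401004601004500aa1400aa0600aa040092d4008a80002b19001106001105)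
noncomputable def Y3_6_1_0 : Nat := (nat_lit 0x4000000000000000000800000000000000)
noncomputable def Y3_6_2_3 : Nat := (nat_lit 0x2000040000800000000000000000080000)
noncomputable def Y3_6_4_5 : Nat := (nat_lit 0x3600000000000000)
noncomputable def C3_6 : Cd := (Cd.mk (nat_lit 22) (nat_lit 7) (nat_lit 322) SI3_6 SW3_6 RV3_6 CO3_6 (Sl.cons (Sd.mk (nat_lit 0) (nat_lit 0) (nat_lit 0) (nat_lit 3) (Sb.cons (nat_lit 4) (nat_lit 0) (nat_lit 2) (Sb.cons (nat_lit 8) (nat_lit 2) (nat_lit 1) Sb.nil)) (Bl.c Y3_6_1_0 (nat_lit 10) (nat_lit 1) Bl.nil)) (Sl.cons (Sd.mk (nat_lit 2) (nat_lit 0) (nat_lit 3) (nat_lit 5) (Sb.cons (nat_lit 0) (nat_lit 0) (nat_lit 1) (Sb.cons (nat_lit 4) (nat_lit 1) (nat_lit 1) (Sb.cons (nat_lit 8) (nat_lit 2) (nat_lit 3) Sb.nil))) (Bl.r Y3_6_1_0 (nat_lit 0) Bl.nil)) (Sl.cons (Sd.mk (nat_lit 4) (nat_lit 4) (nat_lit 8) (nat_lit 4) (Sb.cons (nat_lit 0) (nat_lit 0) (nat_lit 3) (Sb.cons (nat_lit 8) (nat_lit 3) (nat_lit 1) Sb.nil)) (Bl.r Y3_6_2_3 (nat_lit 3) Bl.nil)) (Sl.cons (Sd.mk (nat_lit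 5) (nat_lit 4) (nat_lit 12) (nat_lit 3) (Sb.cons (nat_lit 4) (nat_lit 0) (nat_lit 1) (Sb.cons (nat_lit 8) (nat_lit 1) (nat_lit 2) Sb.nil)) (Bl.c Y3_6_2_3 (nat_lit 8) (nat_lit 2) Bl.nil)) (Sl.cons (Sd.mk (nat_lit 9) (nat_lit 8) (nat_lit 15) (nat_lit 2) (Sb.cons (nat_lit 4) (nat_lit 0) (nat_lit 2) Sb.nil) (Bl.r Y3_6_4_5 (nat_lit 5) Bl.nil)) (Sl.cons (Sd.mk (nat_lit 10) (nat_lit 8) (nat_lit 17) (nat_lit 5) (Sb.cons (nat_lit 0) (nat_lit 0) (nat_lit 4) (Sb.cons (nat_lit 4) (nat_lit 4) (nat_lit 1) Sb.nil)) (Bl.c Y3_6_4_5 (nat_lit 4) (nat_lit 4) Bl.nil)) Sl.nil)))))))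
noncomputable def SI3_7 : Nat := (nat_lit 0x300c02008020080100000)
noncomputable def SW3_7 : Nat := (nat_lit 0x6000802000a004000000800e003)
noncomputable def RV3_7 : Nat := (nat_lit 0xa80200a801b0a80382b200118a00218a00508000d0a803398a00b)
noncomputable def CO3_7 : Nat := (nat_lit 0x152d40142d4011794011019011005010045008a80001794001105)
noncomputable def Y3_7_1_0 : Nat := (nat_lit 0x100000)
noncomputable def Y3_7_2_3 : Nat := (nat_lit 0x6000000000000000000000000000000000)
noncomputable def C3_7 : Cd := (Cd.mk (nat_lit 9) (nat_lit 8) (nat_lit 98) SI3_7 SW3_7 RV3_7 CO3_7 (Sl.cons (Sd.mk (nat_lit 0) (nat_lit 0) (nat_lit 0) (nat_lit 2) (Sb.cons (nat_lit 4) (nat_lit 0) (nat_lit 2) Sb.nil) (Bl.c Y3_7_1_0 (nat_lit 2) (nat_lit 1) Bl.nil)) (Sl.cons (Sd.mk (nat_lit 2) (nat_lit 0) (nat_lit 2) (nat_lit 1) (Sb.cons (nat_lit 0) (nat_lit 0) (nat_lit 1) Sb.nil) (Bl.r Y3_7_1_0 (nat_lit 0) Bl.nil)) (Sl.cons (Sd.mk (nat_lit 4) (nat_lit 4) (nat_lit 3) (nat_lit 4) (Sb.cons (nat_lit 0) (nat_lit 0) (nat_lit 1) (Sb.cons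 (nat_lit 4) (nat_lit 1) (nat_lit 3) Sb.nil)) (Bl.r Y3_7_2_3 (nat_lit 3) Bl.nil)) (Sl.cons (Sd.mk (nat_lit 5) (nat_lit 4) (nat_lit 7) (nat_lit 2) (Sb.cons (nat_lit 0) (nat_lit 0) (nat_lit 1) (Sb.cons (nat_lit 4) (nat_lit 1) (nat_lit 1) Sb.nil)) (Bl.c Y3_7_2_3 (nat_lit 8) (nat_lit 2) Bl.nil)) Sl.nil)))))
noncomputable def SI3_8 : Nat := (nat_lit 0x100400c020040000000)
noncomputable def SW3_8 : Nat := (nat_lit 0x2800800e0010018018008000)
noncomputable def RV3_8 : Nat := (nat_lit 0xa80110a80150a801739a00008000e0a8032b9a001b9a002)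
noncomputable def CO3_8 : Nat := (nat_lit 0x255940241d401665401004d008a8000275400110d00014d)
noncomputable def Y3_8_1_0 : Nat := (nat_lit 0x380001)
noncomputable def Y3_8_2_3 : Nat := (nat_lit 0x80000)
noncomputable def C3_8 : Cd := (Cd.mk (nat_lit 8) (nat_lit 7) (nat_lit 532) SI3_8 SW3_8 RV3_8 CO3_8 (Sl.cons (Sd.mk (nat_lit 0) (nat_lit 0) (nat_lit 0) (nat_lit 3) (Sb.cons (nat_lit 0) (nat_lit 0) (nat_lit 1) (Sb.cons (nat_lit 4) (nat_lit 1) (nat_lit 1) (Sb.cons (nat_lit 8) (nat_lit 2) (nat_lit 1) Sb.nil))) (Bl.c Y3_8_1_0 (nat_lit 2) (nat_lit 1) Bl.nil)) (Sl.cons (Sd.mk (nat_lit 2) (nat_lit 0) (nat_lit 3) (nat_lit 1) (Sb.cons (nat_lit 0) (nat_lit 0) (nat_lit 1) Sb.nil) (Bl.r Y3_8_1_0 (nat_lit 0) Bl.nil)) (Sl.cons (Sd.mk (nat_lit 4) (nat_lit 4) (nat_lit 4) (nat_lit 1) (Sb.cons (nat_lit 0) (nat_lit 0) (nat_lit 1) Sb.nil) (Bl.r Y3_8_2_3 (nat_lit 3) Bl.nil)) (Sl.cons (Sd.mk (nat_lit 5) (nat_lit 4) (nat_lit 5) (nat_lit 1) (Sb.cons (nat_lit 8) (nat_lit 0) (nat_lit 1) Sb.nil) (Bl.c Y3_8_2_3 (nat_lit 2)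 (nat_lit 2) Bl.nil)) (Sl.cons (Sd.mk (nat_lit 9) (nat_lit 8) (nat_lit 6) (nat_lit 2) (Sb.cons (nat_lit 0) (nat_lit 0) (nat_lit 1) (Sb.cons (nat_lit 4) (nat_lit 1) (nat_lit 1) Sb.nil)) Bl.nil) Sl.nil))))))
noncomputable def SI3_9 : Nat := (nat_lit 0x50100400c0300c03008020080200401000000000000000)
noncomputable def SW3_9 : Nat := (nat_lit 0x1c01e00e0088040016005006802800800300900180180090040008002000)
noncomputable def RV3_9 : Nat := (nat_lit 0xa80060a80120800030a80180800060a80210a801c0a80393180003180023140010a802408000f0a8034b18008b14005b18009b1400698a00d)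
noncomputable def CO3_9 : Nat := (nat_lit 0x288940255940255800166540166400152d40142d401179401100c01004c01004a00aa14008a8000179400110c00110a00014c00014a000145)
noncomputable def Y3_9_1_0 : Nat := (nat_lit 0x6c00058001f0000a)
noncomputable def Y3_9_2_3 : Nat := (nat_lit 0x12000000005800080001600020000400008)
noncomputable def Y3_9_4_5 : Nat := (nat_lit 0x80000)
noncomputable def C3_9 : Cd := (Cd.mk (nat_lit 19) (nat_lit 8) (nat_lit 308) SI3_9 SW3_9 RV3_9 CO3_9 (Sl.cons (Sd.mk (nat_lit 0) (nat_lit 0) (nat_lit 0) (nat_lit 6) (Sb.cons (nat_lit 0) (nat_lit 0) (nat_lit 3) (Sb.cons (nat_lit 4) (nat_lit 3) (nat_lit 3) Sb.nil)) (Bl.c Y3_9_1_0 (nat_lit 4) (nat_lit 1) Bl.nil)) (Sl.cons (Sd.mk (nat_lit 2) (nat_lit 0) (nat_lit 6) (nat_lit 2) (Sb.cons (nat_lit 0) (nat_lit 0) (nat_lit 1) (Sb.cons (nat_lit 8) (nat_lit 1) (nat_lit 1) Sb.nil)) (Bl.r Y3_9_1_0 (nat_lit 0) Bl.nil)) (Sl.cons (Sd.mk (nat_lit 4) (nat_lit 4) (nat_lit 8) (nat_lit 4) (Sb.cons (nat_lit 0) (nat_lit 0) (nat_lit 2) (Sb.cons (nat_lit 4) (nat_lit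 2) (nat_lit 2) Sb.nil)) (Bl.r Y3_9_2_3 (nat_lit 3) Bl.nil)) (Sl.cons (Sd.mk (nat_lit 5) (nat_lit 4) (nat_lit 12) (nat_lit 4) (Sb.cons (nat_lit 0) (nat_lit 0) (nat_lit 1) (Sb.cons (nat_lit 4) (nat_lit 1) (nat_lit 1) (Sb.cons (nat_lit 8) (nat_lit 2) (nat_lit 2) Sb.nil))) (Bl.c Y3_9_2_3 (nat_lit 8) (nat_lit 2) Bl.nil)) (Sl.cons (Sd.mk (nat_lit 9) (nat_lit 8) (nat_lit 16) (nat_lit 2) (Sb.cons (nat_lit 4) (nat_lit 0) (nat_lit 2) Sb.nil) (Bl.r Y3_9_4_5 (nat_lit 5) Bl.nil)) (Sl.cons (Sd.mk (nat_lit 10) (nat_lit 8) (nat_lit 18) (nat_lit 1) (Sb.cons (nat_lit 0) (nat_lit 0) (nat_lit 1) Sb.nil) (Bl.c Y3_9_4_5 (nat_lit 4) (nat_lit 4) Bl.nil)) Sl.nil)))))))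
noncomputable def SI3_10 : Nat := (nat_lit 0x300c0300c0200802008010040000000)
noncomputable def SW3_10 : Nat := (nat_lit 0xc00580280040080038018002004000002400a003)
noncomputable def RV3_10 : Nat := (nat_lit 0x18a0151080010800080a801d2b200229600029200129200318a0190a80280a8035a920080a803a)
noncomputable def CO3_10 : Nat := (nat_lit 0x156850156840156800142d401101901100b011009010049008a850082d4001794001109000b94)
noncomputable def Y3_10_1_0 : Nat := (nat_lit 0xa00000000100002)
noncomputable def Y3_10_2_3 : Nat := (nat_lit 0x600008000180002000060000c000180002)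
noncomputable def C3_10 : Cd := (Cd.mk (nat_lit 13) (nat_lit 9) (nat_lit 84) SI3_10 SW3_10 RV3_10 CO3_10 (Sl.cons (Sd.mk (nat_lit 0) (nat_lit 0) (nat_lit 0) (nat_lit 3) (Sb.cons (nat_lit 0) (nat_lit 0) (nat_lit 1) (Sb.cons (nat_lit 4) (nat_lit 1) (nat_lit 2) Sb.nil)) (Bl.c Y3_10_1_0 (nat_lit 4) (nat_lit 1) Bl.nil)) (Sl.cons (Sd.mk (nat_lit 2) (nat_lit 0) (nat_lit 3) (nat_lit 2) (Sb.cons (nat_lit 0) (nat_lit 0) (nat_lit 2) Sb.nil) (Bl.r Y3_10_1_0 (nat_lit 0) Bl.nil)) (Sl.cons (Sd.mk (nat_lit 4) (nat_lit 4) (nat_lit 5) (nat_lit 4) (Sb.cons (nat_lit 0) (nat_lit 0) (nat_lit 1) (Sb.cons (nat_lit 4) (nat_lit 1) (nat_lit 3) Sb.nil)) (Bl.r Y3_10_2_3 (nat_lit 3) Bl.nil)) (Sl.cons (Sd.mk (nat_lit 5) (nat_lit 4) (nat_lit 9) (nat_lit 4) (Sb.cons (nat_lit 0) (nat_lit 0) (nat_lit 1) (Sb.cons (nat_lit 4) (nat_lit 1) (nat_lit 3) Sb.nil)) (Bl.c Y3_10_2_3 (nat_lit 8) (nat_lit 2) Bl.nil)) Sl.nil)))))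
noncomputable def SI3_11 : Nat := (nat_lit 0xc0300802008010040100000)
noncomputable def SW3_11 : Nat := (nat_lit 0x8003003801800a0090040008002000)
noncomputable def RV3_11 : Nat := (nat_lit 0xa800729600320c00c2060011840000a8025296008080010b1800ab14007)
noncomputable def CO3_11 : Nat := (nat_lit 0x2889402888b02654602654302654200aa1400aa0b008a8000014c00014a)
noncomputable def Y3_11_1_0 : Nat := (nat_lit 0x1800020000000000000180001)
noncomputable def Y3_11_2_3 : Nat := (nat_lit 0x1000020000400000000100000)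
noncomputable def C3_11 : Cd := (Cd.mk (nat_lit 10) (nat_lit 8) (nat_lit 518) SI3_11 SW3_11 RV3_11 CO3_11 (Sl.cons (Sd.mk (nat_lit 0) (nat_lit 0) (nat_lit 0) (nat_lit 2) (Sb.cons (nat_lit 0) (nat_lit 0) (nat_lit 2) Sb.nil) (Bl.c Y3_11_1_0 (nat_lit 6) (nat_lit 1) Bl.nil)) (Sl.cons (Sd.mk (nat_lit 2) (nat_lit 0) (nat_lit 2) (nat_lit 3) (Sb.cons (nat_lit 0) (nat_lit 0) (nat_lit 1) (Sb.cons (nat_lit 8) (nat_lit 1) (nat_lit 2) Sb.nil)) (Bl.r Y3_11_1_0 (nat_lit 0) Bl.nil)) (Sl.cons (Sd.mk (nat_lit 9) (nat_lit 8) (nat_lit 5) (nat_lit 3) (Sb.cons (nat_lit 8) (nat_lit 0) (nat_lit 3) Sb.nil) (Bl.r Y3_11_2_3 (nat_lit 3) Bl.nil)) (Sl.cons (Sd.mk (nat_lit 10) (nat_lit 8) (nat_lit 8) (nat_lit 2) (Sb.cons (nat_lit 0) (nat_lit 0) (nat_lit 2) Sb.nil) (Bl.c Y3_11_2_3 (nat_lit 6) (nat_lit 2) Bl.nil)) Sl.nil)))))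
noncomputable def SI3_12 : Nat := (nat_lit 0x5014040100400c0300c03008020080200401004010000000000)
noncomputable def SW3_12 : Nat := (nat_lit 0x7003003c01c00d0090044020003005802801200200a004c00a0010060020008000)
noncomputable def RV3_12 : Nat := (nat_lit 0xa800818a0080a801318a0110800040a801918a0130800070a801e2b20032960012920022920040a802618a01718a01a0a80290a8036a920090a803ba9200a)
noncomputable def CO3_12 : Nat := (nat_lit 0x288940288850255940255850255800166540166450166400142d401101901100b01100901004900aa1400aa05008a850082d4001794001109000b94000149)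
noncomputable def Y3_12_1_0 : Nat := (nat_lit 0xa000140005000000001400000000280005)
noncomputable def Y3_12_2_3 : Nat := (nat_lit 0x16000200005800080001600024000580009)
noncomputable def Y3_12_4_5 : Nat := (nat_lit 0x1000000000200004000100000)
noncomputable def C3_12 : Cd := (Cd.mk (nat_lit 21) (nat_lit 9) (nat_lit 294) SI3_12 SW3_12 RV3_12 CO3_12 (Sl.cons (Sd.mk (nat_lit 0) (nat_lit 0) (nat_lit 0) (nat_lit 4) (Sb.cons (nat_lit 0) (nat_lit 0) (nat_lit 2) (Sb.cons (nat_lit 4) (nat_lit 2) (nat_lit 2) Sb.nil)) (Bl.c Y3_12_1_0 (nat_lit 8) (nat_lit 1) Bl.nil)) (Sl.cons (Sd.mk (nat_lit 2) (nat_lit 0) (nat_lit 4) (nat_lit 4) (Sb.cons (nat_lit 0) (nat_lit 0) (nat_lit 2) (Sb.cons (nat_lit 8) (nat_lit 2) (nat_lit 2) Sb.nil)) (Bl.r Y3_12_1_0 (nat_lit 0) Bl.nil)) (Sl.cons (Sd.mk (nat_lit 4) (nat_lit 4) (nat_lit 8) (nat_lit 4) (Sb.cons (nat_lit 0) (nat_lit 0) (nat_lit 1) (Sb.cons (nat_lit 4) (nat_lit 1) (nat_lit 3) Sb.nil)) (Bl.r Y3_12_2_3 (nat_lit 3) Bl.nil)) (Sl.cons (Sd.mk (nat_lit 5) (nat_lit 4) (nat_lit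 12) (nat_lit 4) (Sb.cons (nat_lit 0) (nat_lit 0) (nat_lit 1) (Sb.cons (nat_lit 8) (nat_lit 1) (nat_lit 3) Sb.nil)) (Bl.c Y3_12_2_3 (nat_lit 8) (nat_lit 2) Bl.nil)) (Sl.cons (Sd.mk (nat_lit 9) (nat_lit 8) (nat_lit 16) (nat_lit 3) (Sb.cons (nat_lit 4) (nat_lit 0) (nat_lit 3) Sb.nil) (Bl.r Y3_12_4_5 (nat_lit 5) Bl.nil)) (Sl.cons (Sd.mk (nat_lit 10) (nat_lit 8) (nat_lit 19) (nat_lit 2) (Sb.cons (nat_lit 0) (nat_lit 0) (nat_lit 2) Sb.nil) (Bl.c Y3_12_4_5 (nat_lit 6) (nat_lit 4) Bl.nil)) Sl.nil)))))))
noncomputable def SI3_13 : Nat := (nat_lit 0x80100400)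
noncomputable def SW3_13 : Nat := (nat_lit 0x18008000001)
noncomputable def RV3_13 : Nat := (nat_lit 0x80009210000210001a10004)
noncomputable def CO3_13 : Nat := (nat_lit 0x15680011008010048001108)
noncomputable def Y3_13_1_2 : Nat := (nat_lit 0x200004000000000)
noncomputable def C3_13 : Cd := (Cd.mk (nat_lit 4) (nat_lit 10) (nat_lit 70) SI3_13 SW3_13 RV3_13 CO3_13 (Sl.cons (Sd.mk (nat_lit 0) (nat_lit 0) (nat_lit 0) (nat_lit 1) (Sb.cons (nat_lit 4) (nat_lit 0) (nat_lit 1) Sb.nil) Bl.nil) (Sl.cons (Sd.mk (nat_lit 4) (nat_lit 4) (nat_lit 1) (nat_lit 2) (Sb.cons (nat_lit 0) (nat_lit 0) (nat_lit 1) (Sb.cons (nat_lit 4) (nat_lit 1) (nat_lit 1) Sb.nil)) (Bl.r Y3_13_1_2 (nat_lit 2) Bl.nil)) (Sl.cons (Sd.mk (nat_lit 5) (nat_lit 4) (nat_lit 3) (nat_lit 1) (Sb.cons (nat_lit 4) (nat_lit 0) (nat_lit 1) Sb.nil) (Bl.c Y3_13_1_2 (nat_lit 4) (nat_lit 1) Bl.nil)) Sl.nil))))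
noncomputable def C3_14 : Cd := (Cd.mk (nat_lit 0) (nat_lit 10) (nat_lit 280) (nat_lit 0) (nat_lit 0) (nat_lit 0) (nat_lit 0) Sl.nil)
noncomputable def C3_15 : Cd := (Cd.mk (nat_lit 0) (nat_lit 11) (nat_lit 56) (nat_lit 0) (nat_lit 0) (nat_lit 0) (nat_lit 0) Sl.nil)
noncomputable def C3_16 : Cd := (Cd.mk (nat_lit 0) (nat_lit 11) (nat_lit 266) (nat_lit 0) (nat_lit 0) (nat_lit 0) (nat_lit 0) Sl.nil)
noncomputable def C3_17 : Cd := (Cd.mk (nat_lit 0) (nat_lit 12) (nat_lit 42) (nat_lit 0) (nat_lit 0) (nat_lit 0) (nat_lit 0) Sl.nil)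
noncomputable def C3_18 : Cd := (Cd.mk (nat_lit 0) (nat_lit 13) (nat_lit 28) (nat_lit 0) (nat_lit 0) (nat_lit 0) (nat_lit 0) Sl.nil)
noncomputable def C3_19 : Cd := (Cd.mk (nat_lit 0) (nat_lit 14) (nat_lit 14) (nat_lit 0) (nat_lit 0) (nat_lit 0) (nat_lit 0) Sl.nil)
noncomputable def SI3_20 : Nat := (nat_lit 0x1c06018060180601806018060180601806018060180601805014050140501405014050140501004010040100401004010040100400c0300c0300c0300c0200802008010040100401004010000000000)
noncomputable def SW3_20 : Nat := (nat_lit 0x700b005602a01480a004202000f807803a01c00d805401a00c005000c00403e01e80f007603a004802000e006002800407203801b80d806a0340198050026012008804006401a00c806002e01600000fc06203000200bc04e026012809004600b01700b404400f)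
noncomputable def RV3_20 : Nat := (nat_lit 0xa802c8a800e8a800ba0c00a318001314000a9200ba8e0060a800031800331400229200528e0012100028a800d0a8003a0c00b8a800c2b20040a803f0a800420c0043180043140030a800931800729600429200720c0072b200729200d28e0080a800f31800c31400929200c28e0070a801431800f29200f21000520c00e2100060a801a31801229201121000720c0100a801f0a803e0a80310a802e0a803d20c0150a802731801429600929201220c0140a802b0a80302b20092b200b0a8037)
noncomputable def CO3_20 : Nat := (nat_lit 0x392d40329d403291403290603280c03280a03254903254703245403244c03244a0324490324470314880311d40310d40309860301d40300d902b35402b05402b04602b00c02b00a02889402888c02888b0288890288860280d902714902714702711402710c02710a02710902710702559402558c02558902558802558601720801665401664c0166490166480166460142d4013b94013354013314010b9400b24600aa1400aa0c00aa0b00aa0900aa060092d4003354003319002b19001794)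
noncomputable def Y3_20_1_0 : Nat := (nat_lit 0x100000000080000000040000000010000200004800000001800000000200000)
noncomputable def Y3_20_2_3 : Nat := (nat_lit 0x5800000001f800000002000000000200000)
noncomputable def Y3_20_4_5 : Nat := (nat_lit 0x200004000080001000000000000000000000000000000001a000340068000d000c4800000000400000)
noncomputable def Y3_20_6_6 : Nat := (nat_lit 0x20000000008000000000000000000000000030000000000000000000008000100000000000000000001c00800000)
noncomputable def C3_20 : Cd := (Cd.mk (nat_lit 64) (nat_lit 4) (nat_lit 4369) SI3_20 SW3_20 RV3_20 CO3_20 (Sl.cons (Sd.mk (nat_lit 0) (nat_lit 0) (nat_lit 0) (nat_lit 4) (Sb.cons (nat_lit 4) (nat_lit 0) (nat_lit 1) (Sb.cons (nat_lit 8) (nat_lit 1) (nat_lit 1) (Sb.cons (nat_lit 12) (nat_lit 2) (nat_lit 2) Sb.nil))) (Bl.c Y3_20_1_0 (nat_lit 14) (nat_lit 1) Bl.nil)) (Sl.cons (Sd.mk (nat_lit 2) (nat_lit 0) (nat_lit 4) (nat_lit 7) (Sb.cons (nat_lit 4) (nat_lit 0) (nat_lit 1) (Sb.cons (nat_lit 8) (nat_lit 1) (nat_lit 5) (Sb.cons (nat_lit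 12) (nat_lit 6) (nat_lit 1) Sb.nil))) (Bl.r Y3_20_1_0 (nat_lit 0) Bl.nil)) (Sl.cons (Sd.mk (nat_lit 4) (nat_lit 4) (nat_lit 11) (nat_lit 4) (Sb.cons (nat_lit 0) (nat_lit 0) (nat_lit 1) (Sb.cons (nat_lit 12) (nat_lit 1) (nat_lit 3) Sb.nil)) (Bl.r Y3_20_2_3 (nat_lit 3) Bl.nil)) (Sl.cons (Sd.mk (nat_lit 5) (nat_lit 4) (nat_lit 15) (nat_lit 7) (Sb.cons (nat_lit 0) (nat_lit 0) (nat_lit 1) (Sb.cons (nat_lit 8) (nat_lit 1) (nat_lit 5) (Sb.cons (nat_lit 12) (nat_lit 6) (nat_lit 1) Sb.nil))) (Bl.c Y3_20_2_3 (nat_lit 8) (nat_lit 2) Bl.nil)) (Sl.cons (Sd.mk (nat_lit 9) (nat_lit 8) (nat_lit 22) (nat_lit 12) (Sb.cons (nat_lit 4) (nat_lit 0) (nat_lit 5) (Sb.cons (nat_lit 12) (nat_lit 5) (nat_lit 7) Sb.nil)) (Bl.r Y3_20_4_5 (nat_lit 5) Bl.nil)) (Sl.cons (Sd.mk (nat_lit 10) (nat_lit 8) (nat_lit 34) (nat_lit 11) (Sb.cons (nat_lit 0) (nat_lit 0) (nat_lit 6) (Sb.cons (nat_lit 12) (nat_lit 6) (nat_lit 5) Sb.nil)) (Bl.c Y3_20_4_5 (nat_lit 24) (nat_lit 4) Bl.nil)) (Sl.cons (Sd.mk (nat_lit 12) (nat_lit 12) (nat_lit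 45) (nat_lit 18) (Sb.cons (nat_lit 0) (nat_lit 0) (nat_lit 3) (Sb.cons (nat_lit 4) (nat_lit 3) (nat_lit 3) (Sb.cons (nat_lit 8) (nat_lit 6) (nat_lit 12) Sb.nil))) (Bl.r Y3_20_6_6 (nat_lit 6) (Bl.c Y3_20_6_6 (nat_lit 36) (nat_lit 6) Bl.nil))) (Sl.cons (Sd.mk (nat_lit 14) (nat_lit 12) (nat_lit 63) (nat_lit 1) (Sb.cons (nat_lit 4) (nat_lit 0) (nat_lit 1) Sb.nil) Bl.nil) Sl.nil)))))))))
noncomputable def C3_21 : Cd := (Cd.mk (nat_lit 0) (nat_lit 5) (nat_lit 4145) (nat_lit 0) (nat_lit 0) (nat_lit 0) (nat_lit 0) Sl.nil)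
noncomputable def C3_22 : Cd := (Cd.mk (nat_lit 0) (nat_lit 5) (nat_lit 4355) (nat_lit 0) (nat_lit 0) (nat_lit 0) (nat_lit 0) Sl.nil)
noncomputable def SI3_23 : Nat := (nat_lit 0x100000)
noncomputable def SW3_23 : Nat := (nat_lit 0x4004000)
noncomputable def RV3_23 : Nat := (nat_lit 0x88000008000a080011)
noncomputable def CO3_23 : Nat := (nat_lit 0x3098000b240008a80)
noncomputable def C3_23 : Cd := (Cd.mk (nat_lit 3) (nat_lit 6) (nat_lit 4131) SI3_23 SW3_23 RV3_23 CO3_23 (Sl.cons (Sd.mk (nat_lit 2) (nat_lit 0) (nat_lit 0) (nat_lit 2) (Sb.cons (nat_lit 0) (nat_lit 0) (nat_lit 1) (Sb.cons (nat_lit 12) (nat_lit 1) (nat_lit 1) Sb.nil)) Bl.nil) (Sl.cons (Sd.mk (nat_lit 12) (nat_lit 12) (nat_lit 2) (nat_lit 1) (Sb.cons (nat_lit 0) (nat_lit 0) (nat_lit 1) Sb.nil) Bl.nil) Sl.nil)))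
noncomputable def C3_24 : Cd := (Cd.mk (nat_lit 0) (nat_lit 7) (nat_lit 4117) (nat_lit 0) (nat_lit 0) (nat_lit 0) (nat_lit 0) Sl.nil)
noncomputable def SI3_25 : Nat := (nat_lit 0x2008020080100401004000000000000)
noncomputable def SW3_25 : Nat := (nat_lit 0x8003801800800c005802800a0090018008002000)
noncomputable def RV3_25 : Nat := (nat_lit 0x8800010a800120c0020a800208000b0a802220c0110800120a802db1800bb14008a8e00598a00e)
noncomputable def CO3_25 : Nat := (nat_lit 0x309800308940308860300d400b24000b21400b206008a8000331400014c00014a000147000145)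
noncomputable def Y3_25_1_0 : Nat := (nat_lit 0x8000100006000080000200000000e00004)
noncomputable def Y3_25_2_2 : Nat := (nat_lit 0x400000)
noncomputable def C3_25 : Cd := (Cd.mk (nat_lit 13) (nat_lit 8) (nat_lit 4103) SI3_25 SW3_25 RV3_25 CO3_25 (Sl.cons (Sd.mk (nat_lit 0) (nat_lit 0) (nat_lit 0) (nat_lit 5) (Sb.cons (nat_lit 0) (nat_lit 0) (nat_lit 4) (Sb.cons (nat_lit 12) (nat_lit 4) (nat_lit 1) Sb.nil)) (Bl.c Y3_25_1_0 (nat_lit 8) (nat_lit 1) Bl.nil)) (Sl.cons (Sd.mk (nat_lit 2) (nat_lit 0) (nat_lit 5) (nat_lit 4) (Sb.cons (nat_lit 0) (nat_lit 0) (nat_lit 1) (Sb.cons (nat_lit 12) (nat_lit 1) (nat_lit 3) Sb.nil)) (Bl.r Y3_25_1_0 (nat_lit 0) Bl.nil)) (Sl.cons (Sd.mk (nat_lit 12) (nat_lit 12) (nat_lit 9) (nat_lit 4) (Sb.cons (nat_lit 0) (nat_lit 0) (nat_lit 4) Sb.nil) (Bl.r Y3_25_2_2 (nat_lit 2) (Bl.c Y3_25_2_2 (nat_lit 8) (nat_lit 2) Bl.nil))) Sl.nil))))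
noncomputable def CL3 : Cl := (Cl.cons C3_0 (Cl.cons C3_1 (Cl.cons C3_2 (Cl.cons C3_3 (Cl.cons C3_4 (Cl.cons C3_5 (Cl.cons C3_6 (Cl.cons C3_7 (Cl.cons C3_8 (Cl.cons C3_9 (Cl.cons C3_10 (Cl.cons C3_11 (Cl.cons C3_12 (Cl.cons C3_13 (Cl.cons C3_14 (Cl.cons C3_15 (Cl.cons C3_16 (Cl.cons C3_17 (Cl.cons C3_18 (Cl.cons C3_19 (Cl.cons C3_20 (Cl.cons C3_21 (Cl.cons C3_22 (Cl.cons C3_23 (Cl.cons C3_24 (Cl.cons C3_25 Cl.nil))))))))))))))))))))))))))
noncomputable def AL3_0 : Nat := (nat_lit 0x3c5ef6befdf)
noncomputable def A43_0 : Nat := (nat_lit 0x285ea298b1a)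
noncomputable def IX3_0 : Nat := (nat_lit 0x1200000000000000000000000011000000000000000000000000000000000000000000000000000000000000000100000000000000000000000000f000000000000e000000000000d000000000000c0000000000000000000000000b0000000000000000000000000a0000000000000000000000000000000000000000000000000009000000000000000000000000080000000000000000000000000000000000000070000000000006000000000000000000000000000000000000000000000000000500000000000000000000000004000000000000300000000000000000000000000000000000000000000000000020000000000001000000000000000000000000000000000000000)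
noncomputable def OL3_0 : Nat := (nat_lit 0x29004e0088010001f003c007400d8019002a004c008000f00160024004000400060004)
noncomputable def AL3_1 : Nat := (nat_lit 0)
noncomputable def A43_1 : Nat := (nat_lit 0)
noncomputable def IX3_1 : Nat := (nat_lit 0)
noncomputable def OL3_1 : Nat := (nat_lit 0)
noncomputable def AL3_2 : Nat := (nat_lit 0x242821)
noncomputable def A43_2 : Nat := (nat_lit 0x800)
noncomputable def IX3_2 : Nat := (nat_lit 0)
noncomputable def OL3_2 : Nat := (nat_lit 0x2c)
noncomputable def AL3_3 : Nat := (nat_lit 0x7f)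
noncomputable def A43_3 : Nat := (nat_lit 0x41)
noncomputable def IX3_3 : Nat := (nat_lit 0x1000000000000000000000000000000000000000000000000000000000000000000000000000000)
noncomputable def OL3_3 : Nat := (nat_lit 0xc0000)
noncomputable def AL3_4 : Nat := (nat_lit 0xe88f3)
noncomputable def A43_4 : Nat := (nat_lit 0x20810)
noncomputable def IX3_4 : Nat := (nat_lit 0x200000000000000000000000000000000000000000000000000000000000000000000000000000100000000000000000000000000000000000000000000000000000000000000000000000000000000000000000000000000000000000000000000000000000000000000000000000)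
noncomputable def OL3_4 : Nat := (nat_lit 0x1100160010)
noncomputable def AL3_5 : Nat := (nat_lit 0xf7f9ffffe8fdf39fbfffdbfbf)
noncomputable def A43_5 : Nat := (nat_lit 0x51084922044220507430070b)
noncomputable def IX3_5 : Nat := (nat_lit 0x1a00000000000000000000000019000000000000000000000000000000000000000000000000001800000000000000000000000000000000000000000000000000000000000000017000000000000000000000000000000000000000000000000000000000000000160000000000000000000000000000000000000150000000000000000000000000000000000000140000000000000000000000000000000000000130000000000000000000000000000000000000000000000000012000000000000000000000000000000000000000000000000000000000000000000000000000000000000000001100000000000000000000000000000000000000000000000000100000000000000000000000000000000000000000000000000000000000000000f000000000000000000000000000000000000000000000000000e000000000000000000000000000000000000000000000000000000000000000000000000000000000000000000d0000000000000000000000000c00000000000000000000000000000000000000000000000000000000000000000000000000000b000000000000a00000000000090000000000000000000000000800000000000000000000000000000000000000000000000000000000000000007000000000000600000000000000000000000000000000000000000000000000000000000000000000000000000000000000000000000000000000000000000000000000000000050000000000004000000000000300000000000000000000000000000000000000000000000000000000000000002000000000000000000000000010000000000000)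
noncomputable def OL3_5 : Nat := (nat_lit 0x5e00b80160029804e009601200228041007400d8018802d004c009000f001d0038006800a801400140024004000300020000)
noncomputable def AL3_6 : Nat := (nat_lit 0x3fdd8d8db800bbfd99dc)
noncomputable def A43_6 : Nat := (nat_lit 0xc5c8488100081c5980c)
noncomputable def IX3_6 : Nat := (nat_lit 0x1500000000000140000000000000000000000000000000000000000000000000013000000000000000000000000120000000000011000000000001000000000000000000000000000000000000000f0000000000000000000000000000000000000000000000000000000000000000e00000000000000000000000000000000000000d000000000000000000000000000000000000000000000000000c000000000000000000000000000000000000000000000000000000000000000000000000000000000000000000b000000000000000000000000000000000000000000000000000000000000000000000000000000000000000000000000000000000000000000000000000000000000000000000000000000000000000000000000a0000000000000000000000000000000000000000000000000000000000000000000000000000000000000000009000000000000800000000000070000000000000000000000000000000000000000000000000006000000000000000000000000050000000000004000000000000000000000000000000000000003000000000000200000000000000000000000000000000000000000000000000000000000000000000000000000000000000000000000000000001000000000000000000000000000000000000000)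
noncomputable def OL3_6 : Nat := (nat_lit 0x96012802300440086010801f803a006e00cc016001f0030005c00b00120020003c006000b00060008)
noncomputable def AL3_7 : Nat := (nat_lit 0xdffff)
noncomputable def A43_7 : Nat := (nat_lit 0x1e24d)
noncomputable def IX3_7 : Nat := (nat_lit 0x80000000000007000000000000600000000000050000000000000000000000000000000000000000000000000004000000000000000000000000000000000000003000000000000000000000000000000000000002000000000000100000000000000000000000000)
noncomputable def OL3_7 : Nat := (nat_lit 0x40007800e001a0024003000300040000)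
noncomputable def AL3_8 : Nat := (nat_lit 0x100000081401800209840)
noncomputable def A43_8 : Nat := (nat_lit 0x81400800208840)
noncomputable def IX3_8 : Nat := (nat_lit 0x70000000000000000000000000000000000000000000000000000000000000000000000000000000000000000006000000000000000000000000050000000000000000000000000000000000000000000000000000000000000000000000000000000000000000000000000000000000000000000000000000000000000000000000400000000000000000000000000000000000000000000000000000000000000000000000000000000000000000000000000000000000000000000000000000000000000000000000000000000000000000000000000000000000003000000000000000000000000000000000000000000000000000000000000000000000000000002000000000000000000000000000000000000000000000000000100000000000000000000000000000000000000000000000000000000000000000000000000000000000000000000000000000000000000000000000000000000000000000000000)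
noncomputable def OL3_8 : Nat := (nat_lit 0x1b8030005c008c00a800f00160018)
noncomputable def AL3_9 : Nat := (nat_lit 0x1c06c8d91e881c40a8b831)
noncomputable def A43_9 : Nat := (nat_lit 0x40208410c880c40083831)
noncomputable def IX3_9 : Nat := (nat_lit 0x120000000000000000000000000000000000000000000000000000000000000000000000000000000000000000000000000000000000000000000110000000000000000000000000000000000000000000000000000000000000000000000000000100000000000000000000000000000000000000000000000000000000000000000f00000000000000000000000000000000000000000000000000000000000000000000000000000e0000000000000000000000000000000000000000000000000000000000000000d000000000000c00000000000000000000000000000000000000b000000000000000000000000000000000000000000000000000a0000000000000000000000000000000000000000000000000000000000000000000000000000000000000000000000000000000900000000000080000000000000000000000000000000000000000000000000007000000000000000000000000000000000000000000000000000000000000000000000000000000000000000000000000000000000000000000000000000000000000000000000060000000000000000000000000000000000000000000000000000000000000000000000000000050000000000004000000000000300000000000000000000000000000000000000000000000000000000000000000000000000000200000000000010000000000000000000000000000000000000000000000000000)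
noncomputable def OL3_9 : Nat := (nat_lit 0x520092010c01f0038006600c8017802b0046008800f0013001a0030005800500080000)
noncomputable def AL3_10 : Nat := (nat_lit 0x1fd959d6)
noncomputable def A43_10 : Nat := (nat_lit 0x1d5848d4)
noncomputable def IX3_10 : Nat := (nat_lit 0xc000000000000b000000000000a00000000000000000000000009000000000000000000000000080000000000000000000000000700000000000060000000000000000000000000000000000000000000000000000000000000000500000000000000000000000000000000000000400000000000000000000000000000000000000000000000000030000000000002000000000000000000000000010000000000000000000000000000000000000000000000000000)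
noncomputable def OL3_10 : Nat := (nat_lit 0x7000d801a0030005800a0013001c002c003800600080008)
noncomputable def AL3_11 : Nat := (nat_lit 0x71df8bc0)
noncomputable def A43_11 : Nat := (nat_lit 0x605b02c0)
noncomputable def IX3_11 : Nat := (nat_lit 0x9000000000000800000000000000000000000000000000000000000000000000000000000000000000000000000000000000000070000000000000000000000000600000000000050000000000000000000000000400000000000030000000000000000000000000000000000000000000000000000000000000000000000000000000000000000002000000000000000000000000010000000000000000000000000000000000000000000000000000000000000000000000000000000000000000000)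
noncomputable def OL3_11 : Nat := (nat_lit 0x3c007400b0014002600440080009000e0018)
noncomputable def AL3_12 : Nat := (nat_lit 0x18dd1fc8d99230)
noncomputable def A43_12 : Nat := (nat_lit 0x18dd0b88c89230)
noncomputable def IX3_12 : Nat := (nat_lit 0x1400000000000130000000000000000000000000000000000000000000000000012000000000001100000000000000000000000010000000000000f000000000000e0000000000000000000000000d0000000000000000000000000000000000000000000000000000000000000000c0000000000000000000000000b000000000000a00000000000090000000000000000000000000000000000000000000000000008000000000000000000000000000000000000000000000000000700000000000060000000000000000000000000000000000000050000000000000000000000000000000000000000000000000004000000000000000000000000000000000000003000000000000000000000000000000000000002000000000000000000000000000000000000000000000000000100000000000000000000000000000000000000000000000000000000000000000)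
noncomputable def OL3_12 : Nat := (nat_lit 0xd0019802f005c00b0015802a0050008c0108020003e006c00b80160026003c0060009000a0010)
noncomputable def AL3_13 : Nat := (nat_lit 0xd3eef7)
noncomputable def A43_13 : Nat := (nat_lit 0x410804)
noncomputable def IX3_13 : Nat := (nat_lit 0x30000000000000000000000000000000000000000000000000000000000000000000000000000020000000000000000000000000000000000000000000000000000000000000000100000000000000000000000000000000000000000000000000000000000000000000000000000000000000000000000000000000000000000000000000000000000000000000000)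
noncomputable def OL3_13 : Nat := (nat_lit 0xb001000160008)
noncomputable def AL3_14 : Nat := (nat_lit 0)
noncomputable def A43_14 : Nat := (nat_lit 0)
noncomputable def IX3_14 : Nat := (nat_lit 0)
noncomputable def OL3_14 : Nat := (nat_lit 0)
noncomputable def AL3_15 : Nat := (nat_lit 0)
noncomputable def A43_15 : Nat := (nat_lit 0)
noncomputable def IX3_15 : Nat := (nat_lit 0)
noncomputable def OL3_15 : Nat := (nat_lit 0)
noncomputable def AL3_16 : Nat := (nat_lit 0)
noncomputable def A43_16 : Nat := (nat_lit 0)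
noncomputable def IX3_16 : Nat := (nat_lit 0)
noncomputable def OL3_16 : Nat := (nat_lit 0)
noncomputable def AL3_17 : Nat := (nat_lit 0)
noncomputable def A43_17 : Nat := (nat_lit 0)
noncomputable def IX3_17 : Nat := (nat_lit 0)
noncomputable def OL3_17 : Nat := (nat_lit 0)
noncomputable def AL3_18 : Nat := (nat_lit 0)
noncomputable def A43_18 : Nat := (nat_lit 0)
noncomputable def IX3_18 : Nat := (nat_lit 0)
noncomputable def OL3_18 : Nat := (nat_lit 0)
noncomputable def AL3_19 : Nat := (nat_lit 0)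
noncomputable def A43_19 : Nat := (nat_lit 0)
noncomputable def IX3_19 : Nat := (nat_lit 0)
noncomputable def OL3_19 : Nat := (nat_lit 0)
noncomputable def AL3_20 : Nat := (nat_lit 0x10f4081b1851f163b7a20437fa04628f9f85fcc23faff7ff)
noncomputable def A43_20 : Nat := (nat_lit 0x101408181811d06123220432ea00608e9781bcc21825d46c)
noncomputable def IX3_20 : Nat := (nat_lit 0x3f0000000000000000000000000000000000000000000000000000000000000000000000000000000000000000000000000000003e0000000000000000000000003d000000000000000000000000000000000000000000000000000000000000000000000000000000000000000003c000000000000000000000000000000000000000000000000000000000000000000000000000000000000000003b000000000003a0000000000000000000000000000000000000000000000000000000000000000000000000000000000000000039000000000003800000000000000000000000000000000000000000000000000000000000000000000000000000000000000000370000000000000000000000000000000000000000000000000036000000000003500000000000340000000000000000000000003300000000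000000000000000000000000000000000000000000000000000000000000000000003200000000000310000000000000000000000000000000000000000000000000000000000000003000000000000000000000000000000000000002f000000000000000000000000000000000000000000000000002e000000000002d00000000000000000000000000000000000002c000000000000000000000000000000000000000000000000002b000000000000000000000000000000000000000000000000000000000000000000000000000000000000000002a0000000000000000000000000000000000000000000000000000000000000002900000000000280000000000000000000000000000000000000270000000000000000000000002600000000000250000000000024000000000000000000000000230000000000000000000000002200000000000000000000000000000000000000000000000000000000000000000000000000000000000000000000000000000000000000000000000000000000000000000000021000000000002000000000000000000000000000000000000000000000000000000000000000000000000000001f000000000000000000000000000000000000000000000000001e000000000001d000000000001c0000000000000000000000001b000000000000000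00000000000000000000001a00000000000000000000000019000000000001800000000000170000000000016000000000000000000000000000000000000000000000000000000000000000000000000000000000000000001500000000000140000000000000000000000001300000000000120000000000011000000000001000000000000000000000000000000000000000f000000000000e0000000000000000000000000000000000000000000000000000000000000000d0000000000000000000000000000000000000000000000000000000000000000c000000000000b00000000000000000000000000000000000000000000000000000000000000000000000000000a000000000000000000000000000000000000009000000000000000000000000080000000000007000000000000600000000000000000000000005000000000000000000000000040000000000000000000000000000000000000000000000000003000000000000200000000000000000000000001000000000000000000000000000000000000000)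
noncomputable def OL3_20 : Nat := (nat_lit 0x5e00b4016402ac05200a30138026c04a0090011e02380460086010a020003e807900f001d4038806a00ca0190030805f00bc017402d8059009c013402380430084010401f803c007400e401c0037006000bc016802c005600a801380260042007000d801500240040007800e00180028003000500060008)
noncomputable def AL3_21 : Nat := (nat_lit 0)
noncomputable def A43_21 : Nat := (nat_lit 0)
noncomputable def IX3_21 : Nat := (nat_lit 0)
noncomputable def OL3_21 : Nat := (nat_lit 0)
noncomputable def AL3_22 : Nat := (nat_lit 0)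
noncomputable def A43_22 : Nat := (nat_lit 0)
noncomputable def IX3_22 : Nat := (nat_lit 0)
noncomputable def OL3_22 : Nat := (nat_lit 0)
noncomputable def AL3_23 : Nat := (nat_lit 0x8120420424)
noncomputable def A43_23 : Nat := (nat_lit 0x8000020400)
noncomputable def IX3_23 : Nat := (nat_lit 0x2000000000000000000000000000000000000000000000000000000000000000000000000000000000000000000000000000000000000000000000000000000000000000000000000000000000000000000000000000000000000000000000000000000000000000000000000000000000000000000000000000000000000000000000000000000000000000000000100000000000000000000000000000000000000000000000000000000000000000000000000000000000000000000000000000000000000000000000000000000000000000000000000000000000000000000000000000000000000000000000000000000000000000000000000000)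
noncomputable def OL3_23 : Nat := (nat_lit 0x2700220028)
noncomputable def AL3_24 : Nat := (nat_lit 0)
noncomputable def A43_24 : Nat := (nat_lit 0)
noncomputable def IX3_24 : Nat := (nat_lit 0)
noncomputable def OL3_24 : Nat := (nat_lit 0)
noncomputable def AL3_25 : Nat := (nat_lit 0x7edff70dbd)
noncomputable def A43_25 : Nat := (nat_lit 0x540b4100b5)
noncomputable def IX3_25 : Nat := (nat_lit 0xc0000000000000000000000000b0000000000000000000000000a0000000000000000000000000000000000000000000000000000000000000000000000000000000000000000009000000000000000000000000080000000000007000000000000000000000000060000000000000000000000000000000000000000000000000000000000000000000000000000050000000000000000000000000000000000000000000000000000000000000000000000000000000000000000000000000000000000000000000040000000000000000000000000300000000000020000000000000000000000000100000000000000000000000000)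
noncomputable def OL3_25 : Nat := (nat_lit 0x9801200220036006400c00160020001c002800400040000)
noncomputable def TL3 : Tl := (Tl.cons (Tr.mk AL3_0 A43_0 IX3_0 OL3_0) (Tl.cons (Tr.mk AL3_1 A43_1 IX3_1 OL3_1) (Tl.cons (Tr.mk AL3_2 A43_2 IX3_2 OL3_2) (Tl.cons (Tr.mk AL3_3 A43_3 IX3_3 OL3_3) (Tl.cons (Tr.mk AL3_4 A43_4 IX3_4 OL3_4) (Tl.cons (Tr.mk AL3_5 A43_5 IX3_5 OL3_5) (Tl.cons (Tr.mk AL3_6 A43_6 IX3_6 OL3_6) (Tl.cons (Tr.mk AL3_7 A43_7 IX3_7 OL3_7) (Tl.cons (Tr.mk AL3_8 A43_8 IX3_8 OL3_8) (Tl.cons (Tr.mk AL3_9 A43_9 IX3_9 OL3_9) (Tl.cons (Tr.mk AL3_10 A43_10 IX3_10 OL3_10) (Tl.cons (Tr.mk AL3_11 A43_11 IX3_11 OL3_11) (Tl.cons (Tr.mk AL3_12 A43_12 IX3_12 OL3_12) (Tl.cons (Tr.mk AL3_13 A43_13 IX3_13 OL3_13) (Tl.cons (Tr.mk AL3_14 A43_14 IX3_14 OL3_14) (Tl.cons (Tr.mk AL3_15 A43_15 IX3_15 OL3_15) (Tl.cons (Tr.mk AL3_16 A43_16 IX3_16 OL3_16) (Tl.cons (Tr.mk AL3_17 A43_17 IX3_17 OL3_17) (Tl.cons (Tr.mk AL3_18 A43_18 IX3_18 OL3_18) (Tl.cons (Tr.mk AL3_19 A43_19 IX3_19 OL3_19) (Tl.cons (Tr.mk AL3_20 A43_20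 IX3_20 OL3_20) (Tl.cons (Tr.mk AL3_21 A43_21 IX3_21 OL3_21) (Tl.cons (Tr.mk AL3_22 A43_22 IX3_22 OL3_22) (Tl.cons (Tr.mk AL3_23 A43_23 IX3_23 OL3_23) (Tl.cons (Tr.mk AL3_24 A43_24 IX3_24 OL3_24) (Tl.cons (Tr.mk AL3_25 A43_25 IX3_25 OL3_25) Tl.nil))))))))))))))))))))))))))
noncomputable def ZL3_0 : Zl := (Zl.cons (nat_lit 0) (nat_lit 0) (nat_lit 2) (Zl.cons (nat_lit 0) (nat_lit 0) (nat_lit 0) (Zl.cons (nat_lit 0) (nat_lit 0) (nat_lit 0) (Zl.cons (nat_lit 0) (nat_lit 2) (nat_lit 1) (Zl.cons (nat_lit 0) (nat_lit 0) (nat_lit 0) (Zl.cons (nat_lit 9) (nat_lit 3) (nat_lit 6) (Zl.cons (nat_lit 8) (nat_lit 9) (nat_lit 4) (Zl.cons (nat_lit 3) (nat_lit 13) (nat_lit 4) (Zl.cons (nat_lit 4) (nat_lit 17) (nat_lit 1) (Zl.cons (nat_lit 8) (nat_lit 18) (nat_lit 4) (Zl.cons (nat_lit 5) (nat_lit 22) (nat_lit 4) (Zl.cons (nat_lit 0) (nat_lit 0) (nat_lit 0) (Zl.cons (nat_lit 8) (nat_lit 26) (nat_lit 4) (Zl.cons (nat_lit 1) (nat_lit 30) (nat_lit 2) (Zl.cons (nat_lit 0) (nat_lit 0) (nat_lit 0) (Zl.cons (nat_lit 0) (nat_lit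 0) (nat_lit 0) (Zl.cons (nat_lit 0) (nat_lit 0) (nat_lit 0) (Zl.cons (nat_lit 0) (nat_lit 0) (nat_lit 0) (Zl.cons (nat_lit 0) (nat_lit 0) (nat_lit 0) (Zl.cons (nat_lit 0) (nat_lit 0) (nat_lit 0) (Zl.cons (nat_lit 11) (nat_lit 32) (nat_lit 4) (Zl.cons (nat_lit 0) (nat_lit 0) (nat_lit 0) (Zl.cons (nat_lit 0) (nat_lit 0) (nat_lit 0) (Zl.cons (nat_lit 0) (nat_lit 0) (nat_lit 0) (Zl.cons (nat_lit 0) (nat_lit 0) (nat_lit 0) (Zl.cons (nat_lit 0) (nat_lit 0) (nat_lit 0) Zl.nil))))))))))))))))))))))))))
noncomputable def ZZ3 : ZZ := (ZZ.cons ZL3_0 ZZ.nil)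

end Pool.Agent.NNr.R15_1_2_4
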