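import Pool.Agent.NNe.Chk

set_option linter.all false
set_option maxRecDepth 1000000
namespace Pool.Agent.NNr.R15_1_2_4

open Pool.Agent.NNe

noncomputable def SI4_0 : Nat := (nat_lit 0x4010040100000)
noncomputable def SW4_0 : Nat := (nat_lit 0xa0040018008002000)
noncomputable def RV4_0 : Nat := (nat_lit 0x2b200229600229200421000139a001314005)
noncomputable def CO4_0 : Nat := (nat_lit 0x2a81902a80b02a80902a80802654d02654a)
noncomputable def Y4_0_0_1 : Nat := (nat_lit 0x81c0)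
noncomputable def C4_0 : Cd := (Cd.mk (nat_lit 6) (nat_lit 4) (nat_lit 784) SI4_0 SW4_0 RV4_0 CO4_0 (Sl.cons (Sd.mk (nat_lit 9) (nat_lit 8) (nat_lit 0) (nat_lit 2) (Sb.cons (nat_lit 8) (nat_lit 0) (nat_lit 2) Sb.nil) (Bl.r Y4_0_0_1 (nat_lit 1) Bl.nil)) (Sl.cons (Sd.mk (nat_lit 10) (nat_lit 8) (nat_lit 2) (nat_lit 4) (Sb.cons (nat_lit 8) (nat_lit 0) (nat_lit 4) Sb.nil) (Bl.c Y4_0_0_1 (nat_lit 4) (nat_lit 0) Bl.nil)) Sl.nil)))
noncomputable def C4_1 : Cd := (Cd.mk (nat_lit 0) (nat_lit 5) (nat_lit 560) (nat_lit 0) (nat_lit 0) (nat_lit 0) (nat_lit 0) Sl.nil)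
noncomputable def C4_2 : Cd := (Cd.mk (nat_lit 0) (nat_lit 6) (nat_lit 336) (nat_lit 0) (nat_lit 0) (nat_lit 0) (nat_lit 0) Sl.nil)
noncomputable def C4_3 : Cd := (Cd.mk (nat_lit 0) (nat_lit 7) (nat_lit 112) (nat_lit 0) (nat_lit 0) (nat_lit 0) (nat_lit 0) Sl.nil)
noncomputable def C4_4 : Cd := (Cd.mk (nat_lit 0) (nat_lit 5) (nat_lit 770) (nat_lit 0) (nat_lit 0) (nat_lit 0) (nat_lit 0) Sl.nil)
noncomputable def SI4_5 : Nat := (nat_lit 0x40100000)
noncomputable def SW4_5 : Nat := (nat_lit 0x18004004000)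
noncomputable def RV4_5 : Nat := (nat_lit 0x18a00018a00198a00298a003)
noncomputable def CO4_5 : Nat := (nat_lit 0x11005010045001105000145)
noncomputable def C4_5 : Cd := (Cd.mk (nat_lit 4) (nat_lit 6) (nat_lit 546) SI4_5 SW4_5 RV4_5 CO4_5 (Sl.cons (Sd.mk (nat_lit 0) (nat_lit 0) (nat_lit 0) (nat_lit 2) (Sb.cons (nat_lit 0) (nat_lit 0) (nat_lit 1) (Sb.cons (nat_lit 4) (nat_lit 1) (nat_lit 1) Sb.nil)) Bl.nil) (Sl.cons (Sd.mk (nat_lit 4) (nat_lit 4) (nat_lit 2) (nat_lit 2) (Sb.cons (nat_lit 0) (nat_lit 0) (nat_lit 1) (Sb.cons (nat_lit 4) (nat_lit 1) (nat_lit 1) Sb.nil)) Bl.nil) Sl.nil)))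
noncomputable def SI4_6 : Nat := (nat_lit 0)
noncomputable def SW4_6 : Nat := (nat_lit 0)
noncomputable def RV4_6 : Nat := (nat_lit 0x296004)
noncomputable def CO4_6 : Nat := (nat_lit 0x1568b)
noncomputable def C4_6 : Cd := (Cd.mk (nat_lit 1) (nat_lit 7) (nat_lit 322) SI4_6 SW4_6 RV4_6 CO4_6 (Sl.cons (Sd.mk (nat_lit 5) (nat_lit 4) (nat_lit 0) (nat_lit 1) (Sb.cons (nat_lit 4) (nat_lit 0) (nat_lit 1) Sb.nil) Bl.nil) Sl.nil))
noncomputable def C4_7 : Cd := (Cd.mk (nat_lit 0) (nat_lit 8) (nat_lit 98) (nat_lit 0) (nat_lit 0) (nat_lit 0) (nat_lit 0) Sl.nil)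
noncomputable def SI4_8 : Nat := (nat_lit 0x400)
noncomputable def SW4_8 : Nat := (nat_lit 0x2000)
noncomputable def RV4_8 : Nat := (nat_lit 0x80002b9a000)
noncomputable def CO4_8 : Nat := (nat_lit 0x8a8000014d)
noncomputable def Y4_8_1_0 : Nat := (nat_lit 0x20)
noncomputable def C4_8 : Cd := (Cd.mk (nat_lit 2) (nat_lit 7) (nat_lit 532) SI4_8 SW4_8 RV4_8 CO4_8 (Sl.cons (Sd.mk (nat_lit 0) (nat_lit 0) (nat_lit 0) (nat_lit 1) (Sb.cons (nat_lit 0) (nat_lit 0) (nat_lit 1) Sb.nil) (Bl.c Y4_8_1_0 (nat_lit 2) (nat_lit 1) Bl.nil)) (Sl.cons (Sd.mk (nat_lit 2) (nat_lit 0) (nat_lit 1) (nat_lit 1) (Sb.cons (nat_lit 0) (nat_lit 0) (nat_lit 1) Sb.nil) (Bl.r Y4_8_1_0 (nat_lit 0) Bl.nil)) Sl.nil)))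
noncomputable def SI4_9 : Nat := (nat_lit 0x802008010000000000)
noncomputable def SW4_9 : Nat := (nat_lit 0x3800c0040040030014002000)
noncomputable def RV4_9 : Nat := (nat_lit 0x318000318001314000080003b18002b14001b18003b14002)
noncomputable def CO4_9 : Nat := (nat_lit 0x1100c01004c01004a008a8000110c00110a00014c00014a)
noncomputable def Y4_9_1_0 : Nat := (nat_lit 0xa0)
noncomputable def C4_9 : Cd := (Cd.mk (nat_lit 8) (nat_lit 8) (nat_lit 308) SI4_9 SW4_9 RV4_9 CO4_9 (Sl.cons (Sd.mk (nat_lit 0) (nat_lit 0) (nat_lit 0) (nat_lit 4) (Sb.cons (nat_lit 0) (nat_lit 0) (nat_lit 2) (Sb.cons (nat_lit 4) (nat_lit 2) (nat_lit 2) Sb.nil)) (Bl.c Y4_9_1_0 (nat_lit 2) (nat_lit 1) Bl.nil)) (Sl.cons (Sd.mk (nat_lit 2) (nat_lit 0) (nat_lit 4) (nat_lit 1) (Sb.cons (nat_lit 0) (nat_lit 0) (nat_lit 1) Sb.nil) (Bl.r Y4_9_1_0 (nat_lit 0) Bl.nil)) (Sl.cons (Sd.mk (nat_lit 4) (nat_lit 4) (nat_lit 5) (nat_lit 3) (Sb.cons (nat_lit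 0) (nat_lit 0) (nat_lit 2) (Sb.cons (nat_lit 4) (nat_lit 2) (nat_lit 1) Sb.nil)) Bl.nil) Sl.nil))))
noncomputable def SI4_10 : Nat := (nat_lit 0x8010040100400)
noncomputable def SW4_10 : Nat := (nat_lit 0xa0040018008000001)
noncomputable def RV4_10 : Nat := (nat_lit 0x800002b2000296000292000292002a92005)
noncomputable def CO4_10 : Nat := (nat_lit 0x1568001101901100b011009010049001109)
noncomputable def Y4_10_1_2 : Nat := (nat_lit 0x802008020)
noncomputable def C4_10 : Cd := (Cd.mk (nat_lit 6) (nat_lit 9) (nat_lit 84) SI4_10 SW4_10 RV4_10 CO4_10 (Sl.cons (Sd.mk (nat_lit 0) (nat_lit 0) (nat_lit 0) (nat_lit 1) (Sb.cons (nat_lit 4) (nat_lit 0) (nat_lit 1) Sb.nil) Bl.nil) (Sl.cons (Sd.mk (nat_lit 4) (nat_lit 4) (nat_lit 1) (nat_lit 4) (Sb.cons (nat_lit 0) (nat_lit 0) (nat_lit 1) (Sb.cons (nat_lit 4) (nat_lit 1) (nat_lit 3) Sb.nil)) (Bl.r Y4_10_1_2 (nat_lit 2) Bl.nil)) (Sl.cons (Sd.mk (nat_lit 5) (nat_lit 4)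 (nat_lit 5) (nat_lit 1) (Sb.cons (nat_lit 4) (nat_lit 0) (nat_lit 1) Sb.nil) (Bl.c Y4_10_1_2 (nat_lit 8) (nat_lit 1) Bl.nil)) Sl.nil))))
noncomputable def SI4_11 : Nat := (nat_lit 0xc020040100000)
noncomputable def SW4_11 : Nat := (nat_lit 0x60040028008002000)
noncomputable def RV4_11 : Nat := (nat_lit 0xa800020c0000a8001080004b18004b14003)
noncomputable def CO4_11 : Nat := (nat_lit 0x2889402654600aa14008a8000014c00014a)
noncomputable def Y4_11_1_0 : Nat := (nat_lit 0x10020)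
noncomputable def Y4_11_2_3 : Nat := (nat_lit 0x20)
noncomputable def C4_11 : Cd := (Cd.mk (nat_lit 6) (nat_lit 8) (nat_lit 518) SI4_11 SW4_11 RV4_11 CO4_11 (Sl.cons (Sd.mk (nat_lit 0) (nat_lit 0) (nat_lit 0) (nat_lit 2) (Sb.cons (nat_lit 0) (nat_lit 0) (nat_lit 2) Sb.nil) (Bl.c Y4_11_1_0 (nat_lit 4) (nat_lit 1) Bl.nil)) (Sl.cons (Sd.mk (nat_lit 2) (nat_lit 0) (nat_lit 2) (nat_lit 2) (Sb.cons (nat_lit 0) (nat_lit 0) (nat_lit 1) (Sb.cons (nat_lit 8) (nat_lit 1) (nat_lit 1) Sb.nil)) (Bl.r Y4_11_1_0 (nat_lit 0) Bl.nil)) (Sl.cons (Sd.mk (nat_lit 9) (nat_lit 8) (nat_lit 4) (nat_lit 1) (Sb.cons (nat_lit 8) (nat_lit 0) (nat_lit 1) Sb.nil) (Bl.r Y4_11_2_3 (nat_lit 3) Bl.nil)) (Sl.cons (Sd.mk (nat_lit 10) (nat_lit 8) (nat_lit 5) (nat_lit 1) (Sb.cons (nat_lit 0) (nat_lit 0) (nat_lit 1) Sb.nil) (Bl.c Y4_11_2_3 (nat_lit 2) (nat_lit 2) Bl.nil)) Sl.nil)))))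
noncomputable def SI4_12 : Nat := (nat_lit 0x4010040100000)
noncomputable def SW4_12 : Nat := (nat_lit 0xa0040018004004000)
noncomputable def RV4_12 : Nat := (nat_lit 0x2b2001296001292001292003a92006a92007)
noncomputable def CO4_12 : Nat := (nat_lit 0x1101901100b011009010049001109000149)
noncomputable def C4_12 : Cd := (Cd.mk (nat_lit 6) (nat_lit 9) (nat_lit 294) SI4_12 SW4_12 RV4_12 CO4_12 (Sl.cons (Sd.mk (nat_lit 0) (nat_lit 0) (nat_lit 0) (nat_lit 2) (Sb.cons (nat_lit 0) (nat_lit 0) (nat_lit 1) (Sb.cons (nat_lit 4) (nat_lit 1) (nat_lit 1) Sb.nil)) Bl.nil) (Sl.cons (Sd.mk (nat_lit 4) (nat_lit 4) (nat_lit 2) (nat_lit 4) (Sb.cons (nat_lit 0) (nat_lit 0) (nat_lit 1) (Sb.cons (nat_lit 4) (nat_lit 1) (nat_lit 3) Sb.nil)) Bl.nil) Sl.nil)))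
noncomputable def SI4_13 : Nat := (nat_lit 0x400)
noncomputable def SW4_13 : Nat := (nat_lit 0x2000)
noncomputable def RV4_13 : Nat := (nat_lit 0x80001210000)
noncomputable def CO4_13 : Nat := (nat_lit 0x15680011008)
noncomputable def Y4_13_0_1 : Nat := (nat_lit 0x20)
noncomputable def C4_13 : Cd := (Cd.mk (nat_lit 2) (nat_lit 10) (nat_lit 70) SI4_13 SW4_13 RV4_13 CO4_13 (Sl.cons (Sd.mk (nat_lit 4) (nat_lit 4) (nat_lit 0) (nat_lit 1) (Sb.cons (nat_lit 4) (nat_lit 0) (nat_lit 1) Sb.nil) (Bl.r Y4_13_0_1 (nat_lit 1) Bl.nil)) (Sl.cons (Sd.mk (nat_lit 5) (nat_lit 4) (nat_lit 1) (nat_lit 1) (Sb.cons (nat_lit 4) (nat_lit 0) (nat_lit 1) Sb.nil) (Bl.c Y4_13_0_1 (nat_lit 2) (nat_lit 0) Bl.nil)) Sl.nil)))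
noncomputable def C4_14 : Cd := (Cd.mk (nat_lit 0) (nat_lit 10) (nat_lit 280) (nat_lit 0) (nat_lit 0) (nat_lit 0) (nat_lit 0) Sl.nil)
noncomputable def C4_15 : Cd := (Cd.mk (nat_lit 0) (nat_lit 11) (nat_lit 56) (nat_lit 0) (nat_lit 0) (nat_lit 0) (nat_lit 0) Sl.nil)
noncomputable def C4_16 : Cd := (Cd.mk (nat_lit 0) (nat_lit 11) (nat_lit 266) (nat_lit 0) (nat_lit 0) (nat_lit 0) (nat_lit 0) Sl.nil)
noncomputable def C4_17 : Cd := (Cd.mk (nat_lit 0) (nat_lit 12) (nat_lit 42) (nat_lit 0) (nat_lit 0) (nat_lit 0) (nat_lit 0) Sl.nil)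
noncomputable def C4_18 : Cd := (Cd.mk (nat_lit 0) (nat_lit 13) (nat_lit 28) (nat_lit 0) (nat_lit 0) (nat_lit 0) (nat_lit 0) Sl.nil)
noncomputable def C4_19 : Cd := (Cd.mk (nat_lit 0) (nat_lit 14) (nat_lit 14) (nat_lit 0) (nat_lit 0) (nat_lit 0) (nat_lit 0) Sl.nil)
noncomputable def SI4_20 : Nat := (nat_lit 0x400)
noncomputable def SW4_20 : Nat := (nat_lit 0x1)
noncomputable def RV4_20 : Nat := (nat_lit 0x296003296005)
noncomputable def CO4_20 : Nat := (nat_lit 0x2888b00aa0b)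
noncomputable def C4_20 : Cd := (Cd.mk (nat_lit 2) (nat_lit 4) (nat_lit 4369) SI4_20 SW4_20 RV4_20 CO4_20 (Sl.cons (Sd.mk (nat_lit 2) (nat_lit 0) (nat_lit 0) (nat_lit 1) (Sb.cons (nat_lit 8) (nat_lit 0) (nat_lit 1) Sb.nil) Bl.nil) (Sl.cons (Sd.mk (nat_lit 10) (nat_lit 8) (nat_lit 1) (nat_lit 1) (Sb.cons (nat_lit 0) (nat_lit 0) (nat_lit 1) Sb.nil) Bl.nil) Sl.nil)))
noncomputable def C4_21 : Cd := (Cd.mk (nat_lit 0) (nat_lit 5) (nat_lit 4145) (nat_lit 0) (nat_lit 0) (nat_lit 0) (nat_lit 0) Sl.nil)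
noncomputable def C4_22 : Cd := (Cd.mk (nat_lit 0) (nat_lit 5) (nat_lit 4355) (nat_lit 0) (nat_lit 0) (nat_lit 0) (nat_lit 0) Sl.nil)
noncomputable def C4_23 : Cd := (Cd.mk (nat_lit 0) (nat_lit 6) (nat_lit 4131) (nat_lit 0) (nat_lit 0) (nat_lit 0) (nat_lit 0) Sl.nil)
noncomputable def C4_24 : Cd := (Cd.mk (nat_lit 0) (nat_lit 7) (nat_lit 4117) (nat_lit 0) (nat_lit 0) (nat_lit 0) (nat_lit 0) Sl.nil)
noncomputable def SI4_25 : Nat := (nat_lit 0x100000)
noncomputable def SW4_25 : Nat := (nat_lit 0x8002000)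
noncomputable def RV4_25 : Nat := (nat_lit 0x80005b18005b14004)
noncomputable def CO4_25 : Nat := (nat_lit 0x8a8000014c00014a)
noncomputable def Y4_25_1_0 : Nat := (nat_lit 0x20)
noncomputable def C4_25 : Cd := (Cd.mk (nat_lit 3) (nat_lit 8) (nat_lit 4103) SI4_25 SW4_25 RV4_25 CO4_25 (Sl.cons (Sd.mk (nat_lit 0) (nat_lit 0) (nat_lit 0) (nat_lit 2) (Sb.cons (nat_lit 0) (nat_lit 0) (nat_lit 2) Sb.nil) (Bl.c Y4_25_1_0 (nat_lit 2) (nat_lit 1) Bl.nil)) (Sl.cons (Sd.mk (nat_lit 2) (nat_lit 0) (nat_lit 2) (nat_lit 1) (Sb.cons (nat_lit 0) (nat_lit 0) (nat_lit 1) Sb.nil) (Bl.r Y4_25_1_0 (nat_lit 0) Bl.nil)) Sl.nil)))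
noncomputable def CL4 : Cl := (Cl.cons C4_0 (Cl.cons C4_1 (Cl.cons C4_2 (Cl.cons C4_3 (Cl.cons C4_4 (Cl.cons C4_5 (Cl.cons C4_6 (Cl.cons C4_7 (Cl.cons C4_8 (Cl.cons C4_9 (Cl.cons C4_10 (Cl.cons C4_11 (Cl.cons C4_12 (Cl.cons C4_13 (Cl.cons C4_14 (Cl.cons C4_15 (Cl.cons C4_16 (Cl.cons C4_17 (Cl.cons C4_18 (Cl.cons C4_19 (Cl.cons C4_20 (Cl.cons C4_21 (Cl.cons C4_22 (Cl.cons C4_23 (Cl.cons C4_24 (Cl.cons C4_25 Cl.nil))))))))))))))))))))))))))
noncomputable def AL4_0 : Nat := (nat_lit 0x5cb00)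
noncomputable def A44_0 : Nat := (nat_lit 0x5c300)
noncomputable def IX4_0 : Nat := (nat_lit 0x5000000000000000000000000040000000000003000000000000200000000000000000000000000000000000000000000000000000000000000001000000000000000000000000000000000000000000000000000000000000000000000000000000000000000000000000000000000000000000000)
noncomputable def OL4_0 : Nat := (nat_lit 0x240040007800e00120020)
noncomputable def AL4_1 : Nat := (nat_lit 0)
noncomputable def A44_1 : Nat := (nat_lit 0)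
noncomputable def IX4_1 : Nat := (nat_lit 0)
noncomputable def OL4_1 : Nat := (nat_lit 0)
noncomputable def AL4_2 : Nat := (nat_lit 0)
noncomputable def A44_2 : Nat := (nat_lit 0)
noncomputable def IX4_2 : Nat := (nat_lit 0)
noncomputable def OL4_2 : Nat := (nat_lit 0)
noncomputable def AL4_3 : Nat := (nat_lit 0)
noncomputable def A44_3 : Nat := (nat_lit 0)
noncomputable def IX4_3 : Nat := (nat_lit 0)
noncomputable def OL4_3 : Nat := (nat_lit 0)
noncomputable def AL4_4 : Nat := (nat_lit 0)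
noncomputable def A44_4 : Nat := (nat_lit 0)
noncomputable def IX4_4 : Nat := (nat_lit 0)
noncomputable def OL4_4 : Nat := (nat_lit 0)
noncomputable def AL4_5 : Nat := (nat_lit 0x2130a)
noncomputable def A44_5 : Nat := (nat_lit 0x120a)
noncomputable def IX4_5 : Nat := (nat_lit 0x3000000000000000000000000000000000000002000000000000000000000000000000000000000000000000000000000000000000000000000001000000000000000000000000000000000000000)
noncomputable def OL4_5 : Nat := (nat_lit 0x6000900060004)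
noncomputable def AL4_6 : Nat := (nat_lit 0x1800)
noncomputable def A44_6 : Nat := (nat_lit 0x1000)
noncomputable def IX4_6 : Nat := (nat_lit 0)
noncomputable def OL4_6 : Nat := (nat_lit 0x30)
noncomputable def AL4_7 : Nat := (nat_lit 0)
noncomputable def A44_7 : Nat := (nat_lit 0)
noncomputable def IX4_7 : Nat := (nat_lit 0)
noncomputable def OL4_7 : Nat := (nat_lit 0)
noncomputable def AL4_8 : Nat := (nat_lit 0x9)
noncomputable def A44_8 : Nat := (nat_lit 0x9)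
noncomputable def IX4_8 : Nat := (nat_lit 0x1000000000000000000000000000000000000000)
noncomputable def OL4_8 : Nat := (nat_lit 0x60000)
noncomputable def AL4_9 : Nat := (nat_lit 0x87de)
noncomputable def A44_9 : Nat := (nat_lit 0x75e)
noncomputable def IX4_9 : Nat := (nat_lit 0x70000000000006000000000000500000000000000000000000004000000000000000000000000030000000000002000000000000100000000000000000000000000)
noncomputable def OL4_9 : Nat := (nat_lit 0x5000900100018002000300040004)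
noncomputable def AL4_10 : Nat := (nat_lit 0x7ea)
noncomputable def A44_10 : Nat := (nat_lit 0x5e2)
noncomputable def IX4_10 : Nat := (nat_lit 0x50000000000000000000000000400000000000030000000000002000000000000100000000000000000000000000000000000000000000000000000000000000000)
noncomputable def OL4_10 : Nat := (nat_lit 0x1400200038006000a0004)
noncomputable def AL4_11 : Nat := (nat_lit 0x297)
noncomputable def A44_11 : Nat := (nat_lit 0x297)
noncomputable def IX4_11 : Nat := (nat_lit 0x5000000000000000000000000040000000000000000000000000000000000000030000000000000000000000000200000000000010000000000000)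
noncomputable def OL4_11 : Nat := (nat_lit 0x12001c002000200020000)
noncomputable def AL4_12 : Nat := (nat_lit 0xa9f95)
noncomputable def A44_12 : Nat := (nat_lit 0xf05)
noncomputable def IX4_12 : Nat := (nat_lit 0x500000000000040000000000003000000000000200000000000000000000000000000000000000000000000000000000000000000000000000000100000000000000000000000000)
noncomputable def OL4_12 : Nat := (nat_lit 0x160028004800800040000)
noncomputable def AL4_13 : Nat := (nat_lit 0xc)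
noncomputable def A44_13 : Nat := (nat_lit 0xc)
noncomputable def IX4_13 : Nat := (nat_lit 0x1000000000000000000000000000000000000000)
noncomputable def OL4_13 : Nat := (nat_lit 0x60008)
noncomputable def AL4_14 : Nat := (nat_lit 0)
noncomputable def A44_14 : Nat := (nat_lit 0)
noncomputable def IX4_14 : Nat := (nat_lit 0)
noncomputable def OL4_14 : Nat := (nat_lit 0)
noncomputable def AL4_15 : Nat := (nat_lit 0)
noncomputable def A44_15 : Nat := (nat_lit 0)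
noncomputable def IX4_15 : Nat := (nat_lit 0)
noncomputable def OL4_15 : Nat := (nat_lit 0)
noncomputable def AL4_16 : Nat := (nat_lit 0)
noncomputable def A44_16 : Nat := (nat_lit 0)
noncomputable def IX4_16 : Nat := (nat_lit 0)
noncomputable def OL4_16 : Nat := (nat_lit 0)
noncomputable def AL4_17 : Nat := (nat_lit 0)
noncomputable def A44_17 : Nat := (nat_lit 0)
noncomputable def IX4_17 : Nat := (nat_lit 0)
noncomputable def OL4_17 : Nat := (nat_lit 0)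
noncomputable def AL4_18 : Nat := (nat_lit 0)
noncomputable def A44_18 : Nat := (nat_lit 0)
noncomputable def IX4_18 : Nat := (nat_lit 0)
noncomputable def OL4_18 : Nat := (nat_lit 0)
noncomputable def AL4_19 : Nat := (nat_lit 0)
noncomputable def A44_19 : Nat := (nat_lit 0)
noncomputable def IX4_19 : Nat := (nat_lit 0)
noncomputable def OL4_19 : Nat := (nat_lit 0)
noncomputable def AL4_20 : Nat := (nat_lit 0x1837463000088)
noncomputable def A44_20 : Nat := (nat_lit 0x2000000080)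
noncomputable def IX4_20 : Nat := (nat_lit 0x10000000000000000000000000000000000000000000000000000000000000000000000000000000000000000000000000000000000000000000000000000000000000000000000000000000000000000000000000000000000000000000000000000000000000000000000000000000000000000000000000000000000000000000000000000000000000000000000000000000000000000000000000000000000000000000000000000000000000000000000000000000000000000000000000000000000000000000000000000000000000000000000000000000000000000000000000000000000000000000000000)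
noncomputable def OL4_20 : Nat := (nat_lit 0x4a001c)
noncomputable def AL4_21 : Nat := (nat_lit 0)
noncomputable def A44_21 : Nat := (nat_lit 0)
noncomputable def IX4_21 : Nat := (nat_lit 0)
noncomputable def OL4_21 : Nat := (nat_lit 0)
noncomputable def AL4_22 : Nat := (nat_lit 0)
noncomputable def A44_22 : Nat := (nat_lit 0)
noncomputable def IX4_22 : Nat := (nat_lit 0)
noncomputable def OL4_22 : Nat := (nat_lit 0)
noncomputable def AL4_23 : Nat := (nat_lit 0)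
noncomputable def A44_23 : Nat := (nat_lit 0)
noncomputable def IX4_23 : Nat := (nat_lit 0)
noncomputable def OL4_23 : Nat := (nat_lit 0)
noncomputable def AL4_24 : Nat := (nat_lit 0)
noncomputable def A44_24 : Nat := (nat_lit 0)
noncomputable def IX4_24 : Nat := (nat_lit 0)
noncomputable def OL4_24 : Nat := (nat_lit 0)
noncomputable def AL4_25 : Nat := (nat_lit 0x1ac)
noncomputable def A44_25 : Nat := (nat_lit 0x2c)
noncomputable def IX4_25 : Nat := (nat_lit 0x200000000000000000000000001000000000000000000000000000000000000000)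
noncomputable def OL4_25 : Nat := (nat_lit 0x500060008)
noncomputable def TL4 : Tl := (Tl.cons (Tr.mk AL4_0 A44_0 IX4_0 OL4_0) (Tl.cons (Tr.mk AL4_1 A44_1 IX4_1 OL4_1) (Tl.cons (Tr.mk AL4_2 A44_2 IX4_2 OL4_2) (Tl.cons (Tr.mk AL4_3 A44_3 IX4_3 OL4_3) (Tl.cons (Tr.mk AL4_4 A44_4 IX4_4 OL4_4) (Tl.cons (Tr.mk AL4_5 A44_5 IX4_5 OL4_5) (Tl.cons (Tr.mk AL4_6 A44_6 IX4_6 OL4_6) (Tl.cons (Tr.mk AL4_7 A44_7 IX4_7 OL4_7) (Tl.cons (Tr.mk AL4_8 A44_8 IX4_8 OL4_8) (Tl.cons (Tr.mk AL4_9 A44_9 IX4_9 OL4_9) (Tl.cons (Tr.mk AL4_10 A44_10 IX4_10 OL4_10) (Tl.cons (Tr.mk AL4_11 A44_11 IX4_11 OL4_11) (Tl.cons (Tr.mk AL4_12 A44_12 IX4_12 OL4_12) (Tl.cons (Tr.mk AL4_13 A44_13 IX4_13 OL4_13) (Tl.cons (Tr.mk AL4_14 A44_14 IX4_14 OL4_14) (Tl.cons (Tr.mk AL4_15 A44_15 IX4_15 OL4_15) (Tl.cons (Tr.mk AL4_16 A44_16 IX4_16 OL4_16) (Tl.cons (Tr.mk AL4_17 A44_17 IX4_17 OL4_17) (Tl.cons (Tr.mk AL4_18 A44_18 IX4_18 OL4_18) (Tl.cons (Tr.mk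 AL4_19 A44_19 IX4_19 OL4_19) (Tl.cons (Tr.mk AL4_20 A44_20 IX4_20 OL4_20) (Tl.cons (Tr.mk AL4_21 A44_21 IX4_21 OL4_21) (Tl.cons (Tr.mk AL4_22 A44_22 IX4_22 OL4_22) (Tl.cons (Tr.mk AL4_23 A44_23 IX4_23 OL4_23) (Tl.cons (Tr.mk AL4_24 A44_24 IX4_24 OL4_24) (Tl.cons (Tr.mk AL4_25 A44_25 IX4_25 OL4_25) Tl.nil))))))))))))))))))))))))))
noncomputable def ZL4_0 : Zl := (Zl.cons (nat_lit 0) (nat_lit 0) (nat_lit 6) (Zl.cons (nat_lit 0) (nat_lit 0) (nat_lit 0) (Zl.cons (nat_lit 0) (nat_lit 0) (nat_lit 0) (Zl.cons (nat_lit 0) (nat_lit 0) (nat_lit 0) (Zl.cons (nat_lit 0) (nat_lit 0) (nat_lit 0) (Zl.cons (nat_lit 0) (nat_lit 0) (nat_lit 4) (Zl.cons (nat_lit 0) (nat_lit 0) (nat_lit 1) (Zl.cons (nat_lit 0) (nat_lit 0) (nat_lit 0) (Zl.cons (nat_lit 0) (nat_lit 0) (nat_lit 2) (Zl.cons (nat_lit 0) (nat_lit 0) (nat_lit 8) (Zl.cons (nat_lit 0) (nat_lit 0) (nat_lit 6) (Zl.cons (nat_lit 0) (nat_lit 0) (nat_lit 6) (Zl.cons (nat_lit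 0) (nat_lit 0) (nat_lit 6) (Zl.cons (nat_lit 0) (nat_lit 0) (nat_lit 2) (Zl.cons (nat_lit 0) (nat_lit 0) (nat_lit 0) (Zl.cons (nat_lit 0) (nat_lit 0) (nat_lit 0) (Zl.cons (nat_lit 0) (nat_lit 0) (nat_lit 0) (Zl.cons (nat_lit 0) (nat_lit 0) (nat_lit 0) (Zl.cons (nat_lit 0) (nat_lit 0) (nat_lit 0) (Zl.cons (nat_lit 0) (nat_lit 0) (nat_lit 0) (Zl.cons (nat_lit 0) (nat_lit 0) (nat_lit 2) (Zl.cons (nat_lit 0) (nat_lit 0) (nat_lit 0) (Zl.cons (nat_lit 0) (nat_lit 0) (nat_lit 0) (Zl.cons (nat_lit 0) (nat_lit 0) (nat_lit 0) (Zl.cons (nat_lit 0) (nat_lit 0) (nat_lit 0) (Zl.cons (nat_lit 0) (nat_lit 0) (nat_lit 3) Zl.nil))))))))))))))))))))))))))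
noncomputable def ZZ4 : ZZ := (ZZ.cons ZL4_0 ZZ.nil)

end Pool.Agent.NNr.R15_1_2_4
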