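import Pool.Agent.NNr.R15_1_2_4.D2
import Pool.Agent.NNr.R15_1_2_4.D3
import Pool.Agent.NNr.R15_1_2_4.D4

set_option linter.all false
set_option maxRecDepth 1000000
namespace Pool.Agent.NNr.R15_1_2_4

open Pool.Agent.NNe

def tc2_25 : tiCov (nat_lit 1) (nat_lit 25) ZZ2 C2_25 = true := by decide +kernel
def wf3_1 : wfC (nat_lit 19) (nat_lit 2) C3_1 = true := by decide +kernel
def wf3_14 : wfC (nat_lit 19) (nat_lit 2) C3_14 = true := by decide +kernel
def wf3_15 : wfC (nat_lit 19) (nat_lit 2) C3_15 = true := by decide +kernel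
def wf3_16 : wfC (nat_lit 19) (nat_lit 2) C3_16 = true := by decide +kernel
def wf3_17 : wfC (nat_lit 19) (nat_lit 2) C3_17 = true := by decide +kernel
def wf3_18 : wfC (nat_lit 19) (nat_lit 2) C3_18 = true := by decide +kernel
def wf3_19 : wfC (nat_lit 19) (nat_lit 2) C3_19 = true := by decide +kernel
def wf3_21 : wfC (nat_lit 19) (nat_lit 2) C3_21 = true := by decide +kernel
def wf3_22 : wfC (nat_lit 19) (nat_lit 2) C3_22 = true := by decide +kernel
def wf3_24 : wfC (nat_lit 19) (nat_lit 2) C3_24 = true := by decide +kernel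
def rf3_1 : rfCk (nat_lit 37) (nat_lit 2) (nat_lit 19) (nat_lit 2) (nat_lit 9) (nat_lit 0) (nat_lit 1) TL3 CL2 CL3 = true := by decide +kernel
def rf3_14 : rfCk (nat_lit 37) (nat_lit 2) (nat_lit 19) (nat_lit 2) (nat_lit 9) (nat_lit 0) (nat_lit 14) TL3 CL2 CL3 = true := by decide +kernel
def rf3_15 : rfCk (nat_lit 37) (nat_lit 2) (nat_lit 19) (nat_lit 2) (nat_lit 9) (nat_lit 0) (nat_lit 15) TL3 CL2 CL3 = true := by decide +kernel
def rf3_16 : rfCk (nat_lit 37) (nat_lit 2) (nat_lit 19) (nat_lit 2) (nat_lit 9) (nat_lit 0) (nat_lit 16) TL3 CL2 CL3 = true := by decide +kernel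
def rf3_17 : rfCk (nat_lit 37) (nat_lit 2) (nat_lit 19) (nat_lit 2) (nat_lit 9) (nat_lit 0) (nat_lit 17) TL3 CL2 CL3 = true := by decide +kernel
def rf3_18 : rfCk (nat_lit 37) (nat_lit 2) (nat_lit 19) (nat_lit 2) (nat_lit 9) (nat_lit 0) (nat_lit 18) TL3 CL2 CL3 = true := by decide +kernel
def rf3_19 : rfCk (nat_lit 37) (nat_lit 2) (nat_lit 19) (nat_lit 2) (nat_lit 9) (nat_lit 0) (nat_lit 19) TL3 CL2 CL3 = true := by decide +kernel
def rf3_21 : rfCk (nat_lit 37) (nat_lit 2) (nat_lit 19) (nat_lit 2) (nat_lit 9) (nat_lit 0) (nat_lit 21) TL3 CL2 CL3 = true := by decide +kernel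
def rf3_22 : rfCk (nat_lit 37) (nat_lit 2) (nat_lit 19) (nat_lit 2) (nat_lit 9) (nat_lit 0) (nat_lit 22) TL3 CL2 CL3 = true := by decide +kernel
def rf3_24 : rfCk (nat_lit 37) (nat_lit 2) (nat_lit 19) (nat_lit 2) (nat_lit 9) (nat_lit 0) (nat_lit 24) TL3 CL2 CL3 = true := by decide +kernel
def sc3_0 : stCov (nat_lit 1) (nat_lit 0) (Rl.cons (nat_lit 0) (nat_lit 19) Rl.nil) C3_0 = true := by decide +kernel
def sc3_1 : stCov (nat_lit 1) (nat_lit 0) Rl.nil C3_1 = true := by decide +kernel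
def sc3_2 : stCov (nat_lit 1) (nat_lit 0) (Rl.cons (nat_lit 0) (nat_lit 1) Rl.nil) C3_2 = true := by decide +kernel
def sc3_3 : stCov (nat_lit 1) (nat_lit 0) (Rl.cons (nat_lit 0) (nat_lit 2) Rl.nil) C3_3 = true := by decide +kernel
def sc3_4 : stCov (nat_lit 0) (nat_lit 0) (Rl.cons (nat_lit 0) (nat_lit 3) Rl.nil) C3_4 = true := by decide +kernel
def sc3_5 : stCov (nat_lit 0) (nat_lit 0) (Rl.cons (nat_lit 0) (nat_lit 27) Rl.nil) C3_5 = true := by decide +kernel
def sc3_6 : stCov (nat_lit 0) (nat_lit 0) (Rl.cons (nat_lit 0) (nat_lit 22) Rl.nil) C3_6 = true := by decide +kernel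
def sc3_7 : stCov (nat_lit 0) (nat_lit 0) (Rl.cons (nat_lit 0) (nat_lit 9) Rl.nil) C3_7 = true := by decide +kernel
def sc3_8 : stCov (nat_lit 0) (nat_lit 0) (Rl.cons (nat_lit 0) (nat_lit 8) Rl.nil) C3_8 = true := by decide +kernel
def sc3_9 : stCov (nat_lit 0) (nat_lit 0) (Rl.cons (nat_lit 0) (nat_lit 19) Rl.nil) C3_9 = true := by decide +kernel
def sc3_10 : stCov (nat_lit 0) (nat_lit 0) (Rl.cons (nat_lit 0) (nat_lit 13) Rl.nil) C3_10 = true := by decide +kernel
def sc3_11 : stCov (nat_lit 0) (nat_lit 0) (Rl.cons (nat_lit 0) (nat_lit 10) Rl.nil) C3_11 = true := by decide +kernel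
def sc3_12 : stCov (nat_lit 0) (nat_lit 0) (Rl.cons (nat_lit 0) (nat_lit 21) Rl.nil) C3_12 = true := by decide +kernel
def sc3_13 : stCov (nat_lit 0) (nat_lit 0) (Rl.cons (nat_lit 0) (nat_lit 4) Rl.nil) C3_13 = true := by decide +kernel
def sc3_14 : stCov (nat_lit 0) (nat_lit 0) Rl.nil C3_14 = true := by decide +kernel
def sc3_15 : stCov (nat_lit 0) (nat_lit 0) Rl.nil C3_15 = true := by decide +kernel
def sc3_16 : stCov (nat_lit 0) (nat_lit 0) Rl.nil C3_16 = true := by decide +kernel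
def sc3_17 : stCov (nat_lit 0) (nat_lit 0) Rl.nil C3_17 = true := by decide +kernel
def sc3_18 : stCov (nat_lit 0) (nat_lit 0) Rl.nil C3_18 = true := by decide +kernel
def sc3_19 : stCov (nat_lit 0) (nat_lit 0) Rl.nil C3_19 = true := by decide +kernel
def sc3_20 : stCov (nat_lit 0) (nat_lit 0) (Rl.cons (nat_lit 0) (nat_lit 64) Rl.nil) C3_20 = true := by decide +kernel
def sc3_21 : stCov (nat_lit 0) (nat_lit 0) Rl.nil C3_21 = true := by decide +kernel
def sc3_22 : stCov (nat_lit 0) (nat_lit 0) Rl.nil C3_22 = true := by decide +kernel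
def sc3_23 : stCov (nat_lit 0) (nat_lit 0) (Rl.cons (nat_lit 0) (nat_lit 3) Rl.nil) C3_23 = true := by decide +kernel
def sc3_24 : stCov (nat_lit 0) (nat_lit 0) Rl.nil C3_24 = true := by decide +kernel
def sc3_25 : stCov (nat_lit 0) (nat_lit 0) (Rl.cons (nat_lit 0) (nat_lit 13) Rl.nil) C3_25 = true := by decide +kernel
def tc3_1 : tiCov (nat_lit 1) (nat_lit 1) ZZ3 C3_1 = true := by decide +kernel
def tc3_14 : tiCov (nat_lit 1) (nat_lit 14) ZZ3 C3_14 = true := by decide +kernel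
def tc3_15 : tiCov (nat_lit 1) (nat_lit 15) ZZ3 C3_15 = true := by decide +kernel
def tc3_16 : tiCov (nat_lit 1) (nat_lit 16) ZZ3 C3_16 = true := by decide +kernel
def tc3_17 : tiCov (nat_lit 1) (nat_lit 17) ZZ3 C3_17 = true := by decide +kernel
def tc3_18 : tiCov (nat_lit 1) (nat_lit 18) ZZ3 C3_18 = true := by decide +kernel
def tc3_19 : tiCov (nat_lit 1) (nat_lit 19) ZZ3 C3_19 = true := by decide +kernel
def tc3_21 : tiCov (nat_lit 1) (nat_lit 21) ZZ3 C3_21 = true := by decide +kernel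
def tc3_22 : tiCov (nat_lit 1) (nat_lit 22) ZZ3 C3_22 = true := by decide +kernel
def tc3_24 : tiCov (nat_lit 1) (nat_lit 24) ZZ3 C3_24 = true := by decide +kernel
def wf4_1 : wfC (nat_lit 5) (nat_lit 2) C4_1 = true := by decide +kernel
def wf4_2 : wfC (nat_lit 5) (nat_lit 2) C4_2 = true := by decide +kernel
def wf4_3 : wfC (nat_lit 5) (nat_lit 2) C4_3 = true := by decide +kernel
def wf4_4 : wfC (nat_lit 5) (nat_lit 2) C4_4 = true := by decide +kernel
def wf4_7 : wfC (nat_lit 5) (nat_lit 2) C4_7 = true := by decide +kernel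
def wf4_14 : wfC (nat_lit 5) (nat_lit 2) C4_14 = true := by decide +kernel
def wf4_15 : wfC (nat_lit 5) (nat_lit 2) C4_15 = true := by decide +kernel
def wf4_16 : wfC (nat_lit 5) (nat_lit 2) C4_16 = true := by decide +kernel
def wf4_17 : wfC (nat_lit 5) (nat_lit 2) C4_17 = true := by decide +kernel
def wf4_18 : wfC (nat_lit 5) (nat_lit 2) C4_18 = true := by decide +kernel
def wf4_19 : wfC (nat_lit 5) (nat_lit 2) C4_19 = true := by decide +kernel
def wf4_21 : wfC (nat_lit 5) (nat_lit 2) C4_21 = true := by decide +kernel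
def wf4_22 : wfC (nat_lit 5) (nat_lit 2) C4_22 = true := by decide +kernel
def wf4_23 : wfC (nat_lit 5) (nat_lit 2) C4_23 = true := by decide +kernel
def wf4_24 : wfC (nat_lit 5) (nat_lit 2) C4_24 = true := by decide +kernel
def rf4_1 : rfCk (nat_lit 19) (nat_lit 2) (nat_lit 5) (nat_lit 2) (nat_lit 9) (nat_lit 0) (nat_lit 1) TL4 CL3 CL4 = true := by decide +kernel
def rf4_2 : rfCk (nat_lit 19) (nat_lit 2) (nat_lit 5) (nat_lit 2) (nat_lit 9) (nat_lit 0) (nat_lit 2) TL4 CL3 CL4 = true := by decide +kernel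
def rf4_3 : rfCk (nat_lit 19) (nat_lit 2) (nat_lit 5) (nat_lit 2) (nat_lit 9) (nat_lit 0) (nat_lit 3) TL4 CL3 CL4 = true := by decide +kernel
def rf4_4 : rfCk (nat_lit 19) (nat_lit 2) (nat_lit 5) (nat_lit 2) (nat_lit 9) (nat_lit 0) (nat_lit 4) TL4 CL3 CL4 = true := by decide +kernel
def rf4_7 : rfCk (nat_lit 19) (nat_lit 2) (nat_lit 5) (nat_lit 2) (nat_lit 9) (nat_lit 0) (nat_lit 7) TL4 CL3 CL4 = true := by decide +kernel
def rf4_14 : rfCk (nat_lit 19) (nat_lit 2) (nat_lit 5) (nat_lit 2) (nat_lit 9) (nat_lit 0) (nat_lit 14) TL4 CL3 CL4 = true := by decide +kernel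
def rf4_15 : rfCk (nat_lit 19) (nat_lit 2) (nat_lit 5) (nat_lit 2) (nat_lit 9) (nat_lit 0) (nat_lit 15) TL4 CL3 CL4 = true := by decide +kernel
def rf4_16 : rfCk (nat_lit 19) (nat_lit 2) (nat_lit 5) (nat_lit 2) (nat_lit 9) (nat_lit 0) (nat_lit 16) TL4 CL3 CL4 = true := by decide +kernel
def rf4_17 : rfCk (nat_lit 19) (nat_lit 2) (nat_lit 5) (nat_lit 2) (nat_lit 9) (nat_lit 0) (nat_lit 17) TL4 CL3 CL4 = true := by decide +kernel
def rf4_18 : rfCk (nat_lit 19) (nat_lit 2) (nat_lit 5) (nat_lit 2) (nat_lit 9) (nat_lit 0) (nat_lit 18) TL4 CL3 CL4 = true := by decide +kernel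
def rf4_19 : rfCk (nat_lit 19) (nat_lit 2) (nat_lit 5) (nat_lit 2) (nat_lit 9) (nat_lit 0) (nat_lit 19) TL4 CL3 CL4 = true := by decide +kernel
def rf4_21 : rfCk (nat_lit 19) (nat_lit 2) (nat_lit 5) (nat_lit 2) (nat_lit 9) (nat_lit 0) (nat_lit 21) TL4 CL3 CL4 = true := by decide +kernel
def rf4_22 : rfCk (nat_lit 19) (nat_lit 2) (nat_lit 5) (nat_lit 2) (nat_lit 9) (nat_lit 0) (nat_lit 22) TL4 CL3 CL4 = true := by decide +kernel
def rf4_23 : rfCk (nat_lit 19) (nat_lit 2) (nat_lit 5) (nat_lit 2) (nat_lit 9) (nat_lit 0) (nat_lit 23) TL4 CL3 CL4 = true := by decide +kernel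
def rf4_24 : rfCk (nat_lit 19) (nat_lit 2) (nat_lit 5) (nat_lit 2) (nat_lit 9) (nat_lit 0) (nat_lit 24) TL4 CL3 CL4 = true := by decide +kernel
def zl4_0 : zlOK (nat_lit 8) ZL4_0 = true := by decide +kernel
def sc4_1 : stCov (nat_lit 1) (nat_lit 0) Rl.nil C4_1 = true := by decide +kernel
def sc4_2 : stCov (nat_lit 1) (nat_lit 0) Rl.nil C4_2 = true := by decide +kernel
def sc4_3 : stCov (nat_lit 1) (nat_lit 0) Rl.nil C4_3 = true := by decide +kernel
def sc4_4 : stCov (nat_lit 0) (nat_lit 0) Rl.nil C4_4 = true := by decide +kernel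
def sc4_7 : stCov (nat_lit 0) (nat_lit 0) Rl.nil C4_7 = true := by decide +kernel
def sc4_14 : stCov (nat_lit 0) (nat_lit 0) Rl.nil C4_14 = true := by decide +kernel
def sc4_15 : stCov (nat_lit 0) (nat_lit 0) Rl.nil C4_15 = true := by decide +kernel
def sc4_16 : stCov (nat_lit 0) (nat_lit 0) Rl.nil C4_16 = true := by decide +kernel
def sc4_17 : stCov (nat_lit 0) (nat_lit 0) Rl.nil C4_17 = true := by decide +kernel
def sc4_18 : stCov (nat_lit 0) (nat_lit 0) Rl.nil C4_18 = true := by decide +kernel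
def sc4_19 : stCov (nat_lit 0) (nat_lit 0) Rl.nil C4_19 = true := by decide +kernel
def sc4_21 : stCov (nat_lit 0) (nat_lit 0) Rl.nil C4_21 = true := by decide +kernel
def sc4_22 : stCov (nat_lit 0) (nat_lit 0) Rl.nil C4_22 = true := by decide +kernel
def sc4_23 : stCov (nat_lit 0) (nat_lit 0) Rl.nil C4_23 = true := by decide +kernel
def sc4_24 : stCov (nat_lit 0) (nat_lit 0) Rl.nil C4_24 = true := by decide +kernel
def tc4_0 : tiCov (nat_lit 1) (nat_lit 0) ZZ4 C4_0 = true := by decide +kernel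
def tc4_1 : tiCov (nat_lit 1) (nat_lit 1) ZZ4 C4_1 = true := by decide +kernel
def tc4_2 : tiCov (nat_lit 1) (nat_lit 2) ZZ4 C4_2 = true := by decide +kernel
def tc4_3 : tiCov (nat_lit 1) (nat_lit 3) ZZ4 C4_3 = true := by decide +kernel
def tc4_4 : tiCov (nat_lit 1) (nat_lit 4) ZZ4 C4_4 = true := by decide +kernel
def tc4_5 : tiCov (nat_lit 1) (nat_lit 5) ZZ4 C4_5 = true := by decide +kernel
def tc4_6 : tiCov (nat_lit 1) (nat_lit 6) ZZ4 C4_6 = true := by decide +kernel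
def tc4_7 : tiCov (nat_lit 1) (nat_lit 7) ZZ4 C4_7 = true := by decide +kernel
def tc4_8 : tiCov (nat_lit 1) (nat_lit 8) ZZ4 C4_8 = true := by decide +kernel
def tc4_9 : tiCov (nat_lit 1) (nat_lit 9) ZZ4 C4_9 = true := by decide +kernel
def tc4_10 : tiCov (nat_lit 1) (nat_lit 10) ZZ4 C4_10 = true := by decide +kernel
def tc4_11 : tiCov (nat_lit 1) (nat_lit 11) ZZ4 C4_11 = true := by decide +kernel
def tc4_12 : tiCov (nat_lit 1) (nat_lit 12) ZZ4 C4_12 = true := by decide +kernel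
def tc4_13 : tiCov (nat_lit 1) (nat_lit 13) ZZ4 C4_13 = true := by decide +kernel
def tc4_14 : tiCov (nat_lit 1) (nat_lit 14) ZZ4 C4_14 = true := by decide +kernel
def tc4_15 : tiCov (nat_lit 1) (nat_lit 15) ZZ4 C4_15 = true := by decide +kernel
def tc4_16 : tiCov (nat_lit 1) (nat_lit 16) ZZ4 C4_16 = true := by decide +kernel
def tc4_17 : tiCov (nat_lit 1) (nat_lit 17) ZZ4 C4_17 = true := by decide +kernel
def tc4_18 : tiCov (nat_lit 1) (nat_lit 18) ZZ4 C4_18 = true := by decide +kernel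
def tc4_19 : tiCov (nat_lit 1) (nat_lit 19) ZZ4 C4_19 = true := by decide +kernel
def tc4_20 : tiCov (nat_lit 1) (nat_lit 20) ZZ4 C4_20 = true := by decide +kernel
def tc4_21 : tiCov (nat_lit 1) (nat_lit 21) ZZ4 C4_21 = true := by decide +kernel
def tc4_22 : tiCov (nat_lit 1) (nat_lit 22) ZZ4 C4_22 = true := by decide +kernel
def tc4_23 : tiCov (nat_lit 1) (nat_lit 23) ZZ4 C4_23 = true := by decide +kernel
def tc4_24 : tiCov (nat_lit 1) (nat_lit 24) ZZ4 C4_24 = true := by decide +kernel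
def tc4_25 : tiCov (nat_lit 1) (nat_lit 25) ZZ4 C4_25 = true := by decide +kernel
def de4_1 : deadCk (nat_lit 5) (nat_lit 2) C4_1 = true := by decide +kernel
def de4_2 : deadCk (nat_lit 5) (nat_lit 2) C4_2 = true := by decide +kernel
def de4_3 : deadCk (nat_lit 5) (nat_lit 2) C4_3 = true := by decide +kernel
def de4_4 : deadCk (nat_lit 5) (nat_lit 2) C4_4 = true := by decide +kernel
def de4_7 : deadCk (nat_lit 5) (nat_lit 2) C4_7 = true := by decide +kernel
def de4_14 : deadCk (nat_lit 5) (nat_lit 2) C4_14 = true := by decide +kernel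
def de4_15 : deadCk (nat_lit 5) (nat_lit 2) C4_15 = true := by decide +kernel
def de4_16 : deadCk (nat_lit 5) (nat_lit 2) C4_16 = true := by decide +kernel
def de4_17 : deadCk (nat_lit 5) (nat_lit 2) C4_17 = true := by decide +kernel
def de4_18 : deadCk (nat_lit 5) (nat_lit 2) C4_18 = true := by decide +kernel
def de4_19 : deadCk (nat_lit 5) (nat_lit 2) C4_19 = true := by decide +kernel
def de4_21 : deadCk (nat_lit 5) (nat_lit 2) C4_21 = true := by decide +kernel
def de4_22 : deadCk (nat_lit 5) (nat_lit 2) C4_22 = true := by decide +kernel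
def de4_23 : deadCk (nat_lit 5) (nat_lit 2) C4_23 = true := by decide +kernel
def de4_24 : deadCk (nat_lit 5) (nat_lit 2) C4_24 = true := by decide +kernel

end Pool.Agent.NNr.R15_1_2_4
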